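import Mathlib
import Pool.Agent.TH127.SC.Defs
import Pool.Agent.TH127.PT.Defs
import Pool.Agent.W527.PerDefs

/-!
# Abelian varieties of CM type: good classes, period matrices, Mumford-Tate groups
-/

namespace Pool.Agent.TH127.PG

open NumberField Module Pool.Agent.W547.KB Pool.Agent.W537.PC Pool.Agent.W527.Struct
  Pool.Agent.W527.Per Pool.Agent.TH127.SC Pool.Agent.TH127.PT Matrix

noncomputable section

/-- Every separated family of CM subfields `T i` of the `E i`, `i ∈ S ≠ ∅`, consists of abelian
extensions of the field of rational numbers, or is mild, or has an embedding whose class is good. -/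
def AbelianMildOrGood {ι : Type} (A : ι → CMPair) : Prop :=
  ∀ (T : ∀ i, IntermediateField ℚ (A i).E) (S : Finset ι), S.Nonempty →
    (∀ i ∈ S, IsCM (T i)) → SeparatedFamily A T S →
      (∀ i ∈ S, IsAbelian (T i)) ∨ MildFamily A T S ∨ ∃ x : Embs (fun i : S => T i), Good x

/-- The fields `E i` have no proper CM subfields and are pairwise non-isomorphic. -/
def Rigid {ι : Type} (A : ι → CMPair) : Prop :=
  (∀ (i : ι) (T : IntermediateField ℚ (A i).E), IsCM T → T = ⊤) ∧
    ∀ i i' : ι, i ≠ i' → ¬ Isomorphic (A i).E (A i').E

instance fintypeEmbs {J : Type} [Fintype J] {F : J → Type} [∀ j, Field (F j)]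
    [∀ j, NumberField (F j)] : Fintype (Embs F) := by
  unfold Embs
  infer_instance

variable {ι : Type} (A : ι → CMPair)

open Classical in
/-- The character of the torus given by `c` is trivial on the Mumford-Tate group: for all
automorphisms `τ` of the complex numbers the sum of `c x` over the embeddings `x` with `τ x` in the
CM type vanishes. -/
def IsMTChar [Fintype ι] (c : Embs (fun i => (A i).E) → ℤ) : Prop :=
  ∀ τ : ℂ ≃+* ℂ, ∑ x : Embs (fun i => (A i).E),
    (if (τ : ℂ →+* ℂ).comp x.2 ∈ (A x.1).Φ then c x else 0) = 0

section product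

variable [Fintype ι] {J : Type} [Fintype J] (t : J → ι)
  {N : Type} [Fintype N] [DecidableEq N]

/-- The embeddings of the factors of the product of the `A (t a)`. -/
abbrev PEmbs : Type := Embs (fun a => (A (t a)).E)

/-- The matrix with entries `φ (e n)`, for the embeddings `φ` and the elements `e n` of a basis of
the rational homology of the product of the `A (t a)`. -/
def embMatrix (e : Basis N ℚ (∀ a, (A (t a)).E)) : Matrix (PEmbs A t) N ℂ :=
  Matrix.of fun y n => y.2 (e n y.1)

/-- The entries of `M` are the periods of elements of `H¹_dR` that are linear combinations with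
algebraic coefficients of the eigenforms. -/
def IsPeriodMatrix (P : PeriodSystem) (e : Basis N ℚ (∀ a, (A (t a)).E)) (M : Matrix N N ℂ) :
    Prop :=
  ∃ B : Matrix N (PEmbs A t) ℂ, (∀ n y, IsAlgebraic ℚ (B n y)) ∧
    M = (Matrix.of fun n y => B n y * P.θ (A (t y.1)) y.2) * embMatrix A t e

/-- The complex points of the Mumford-Tate group: the automorphisms of the complex homology given
by scalars `s` at the embeddings, such that all characters that are trivial on the Mumford-Tate
group are trivial at `s`. -/
def mumfordTate (e : Basis N ℚ (∀ a, (A (t a)).E)) : Set (Matrix N N ℂ) :=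
  {g | ∃ s : Embs (fun i => (A i).E) → ℂˣ, (∀ c, IsMTChar A c → ∏ x, s x ^ c x = 1) ∧
    embMatrix A t e * g =
      (Matrix.of fun y n => ((s ⟨t y.1, y.2⟩ : ℂˣ) : ℂ) * embMatrix A t e y n)}

/-- Every automorphism of the complex numbers agrees on the embeddings of the fields `E i` with one
that fixes all elements of `K`: the field `K` is linearly disjoint from the composite of the images
of the fields `E i` in the complex numbers. -/
def LinearlyDisjoint (K : Subfield ℂ) : Prop :=
  ∀ τ : ℂ ≃+* ℂ, ∃ σ ∈ fixing K, ∀ (i : ι) (φ : (A i).E →+* ℂ),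
    (σ : ℂ →+* ℂ).comp φ = (τ : ℂ →+* ℂ).comp φ

end product

end

end Pool.Agent.TH127.PG
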