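import Mathlib
import Pool.Agent.W527.VFinal
import Pool.Agent.TH127.PT.Rel

/-!
# Transfer of relations for families of CM fields, with good classes

An edited copy of the proof in `Pool.Agent.W527.VFamily`: the condition on separated families is
that all relations are invariant under an element that moves an embedding.
-/

set_option linter.unusedSectionVars false
set_option linter.unusedVariables false

namespace Pool.Agent.TH127.PG

open NumberField Module Pool.Agent.W527 Pool.Agent.W527.Dec Pool.Agent.H204R3.CM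
  Pool.Agent.H977R3.WN Pool.Agent.W527.Vec Pool.Agent.TH127.SC

noncomputable section

variable {L : Type*} [Field L] [NumberField L] [IsGalois ℚ L]
variable {ι : Type*} [Fintype ι] {E : ι → Type*} [∀ i, Field (E i)] [∀ i, NumberField (E i)]
  [∀ i, IsCMField (E i)]
  {V V' : Type*} [AddCommGroup V] [Module ℚ V] [AddCommGroup V'] [Module ℚ V']

/-- All relations are invariant under some element that moves an embedding. -/
def MovesV (κ : L ≃ₐ[ℚ] L) (w : ∀ i, (E i →+* L) → V) (T : ∀ i, IntermediateField ℚ (E i))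
    (S : Finset ι) : Prop :=
  ∀ c : SubEmb L T S → ℤ, (∀ y, c (subCb κ T S y) = - c y) →
    (∀ g : L ≃ₐ[ℚ] L, ∑ y : SubEmb L T S, c y • subWV w T S (g • y) = 0) →
      ∃ (σ : L ≃ₐ[ℚ] L) (y : SubEmb L T S), σ • y ≠ y ∧ ∀ g : L ≃ₐ[ℚ] L,
        c (g • σ • y) = c (g • y)

section basic

variable {κ : L ≃ₐ[ℚ] L} (hκ : ∀ i, ∀ φ : E i →+* L, κ • φ = cbar φ)
  (φ₀ : ∀ i, (E i →+* L)) {w : ∀ i, (E i →+* L) → V} (hw : ∀ i φ, w i (cbar φ) = -w i φ)
  (T : ∀ i, IntermediateField ℚ (E i)) (S : Finset ι) (hT : ∀ i ∈ S, NonReal (T i))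

include hκ φ₀ hw in
theorem subWV_odd (y : SubEmb L T S) : subWV w T S (subCb κ T S y) = - subWV w T S y :=
  trV_odd (φ₀ y.1) (hκ y.1) (T y.1) (hw y.1) y.2

include hκ φ₀ hw hT in
theorem movesV_of_good (hgood : GoodFam κ T S) (hsep : SepV w T S) : MovesV κ w T S := by
  intro c hc hrel
  obtain ⟨y₀, hy₀⟩ := hgood
  obtain ⟨f, W, hW, hWsep⟩ := Pool.Agent.TH127.PT.exists_int (subWV w T S)
  have hodd : ∀ y, W (subCb κ T S y) = - W y := by
    intro y
    have h1 : ((W (subCb κ T S y) : ℤ) : ℚ) = ((- W y : ℤ) : ℚ) := by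
      rw [hW, subWV_odd hκ φ₀ hw T S, map_neg, Int.cast_neg, hW]
    exact_mod_cast h1
  obtain ⟨σ, y, _, h1, h2⟩ := exists_moved_of_good (subCb_invol hκ φ₀ T S)
    (subCb_ne hκ φ₀ T S hT) (subCb_smul hκ φ₀ T S) hy₀ hodd
    (fun y y' h => hsep y y' 1 1 one_pos one_pos fun g => by
      rw [one_smul, one_smul]
      exact hWsep _ _ (h g)) hc (fun g => by
      have h3 := congrArg f (hrel g)
      rw [map_sum, map_zero] at h3
      have h4 : ((∑ y, c y * W (g • y) : ℤ) : ℚ) = 0 := by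
        push_cast
        rw [← h3]
        refine Finset.sum_congr rfl fun y _ => ?_
        rw [map_zsmul, zsmul_eq_mul, hW]
      exact_mod_cast h4)
  exact ⟨σ, y, h1, h2⟩

include hκ φ₀ hw hT in
theorem movesV_of_small (hsm : SmallV (Y := SubEmb L T S) (subCb κ T S) (L ≃ₐ[ℚ] L))
    (hsep : SepV w T S) : MovesV κ w T S := by
  intro c hc hrel
  exact exists_movedV (G := L ≃ₐ[ℚ] L) (Y := SubEmb L T S) (cb := subCb κ T S)
    (subCb_invol hκ φ₀ T S) (subCb_ne hκ φ₀ T S hT) (subCb_smul hκ φ₀ T S)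
    (W := subWV w T S) (subWV_odd hκ φ₀ hw T S) hsep hsm (c := c) hc hrel

end basic

/-- **Transfer of relations.** -/
theorem transfer {κ : L ≃ₐ[ℚ] L} (hκ : ∀ i, ∀ φ : E i →+* L, κ • φ = cbar φ)
    (φ₀ : ∀ i, (E i →+* L)) {w : ∀ i, (E i →+* L) → V} (hw : ∀ i φ, w i (cbar φ) = -w i φ)
    {e : ∀ i, (E i →+* L) → V'} (he : ∀ i φ, e i (cbar φ) = -e i φ)
    (H1 : TwoTerm w e)
    (H2 : ∀ (T : ∀ i, IntermediateField ℚ (E i)) (S : Finset ι), S.Nonempty →
      (∀ i ∈ S, NonReal (T i)) → SepV w T S →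
      MovesV κ w T S ∨ Direct κ w e T S) :
    ∀ (d : ℕ) (T : ∀ i, IntermediateField ℚ (E i)) (S : Finset ι), (∀ i ∈ S, NonReal (T i)) →
      ∑ i ∈ S, finrank ℚ (T i) = d → ∀ c : ∀ i, (T i →+* L) → ℤ,
      (∀ i ψ, c i (κ • ψ) = - c i ψ) →
      (∀ g : L ≃ₐ[ℚ] L, ∑ i ∈ S, ∑ ψ : (T i →+* L), c i ψ • trV (T i) (w i) (g • ψ) = 0) →
      ∀ g : L ≃ₐ[ℚ] L, ∑ i ∈ S, ∑ ψ : (T i →+* L), c i ψ • trV (T i) (e i) (g • ψ) = 0 := by
  classical
  intro d
  induction d using Nat.strong_induction_on with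
  | _ d ih =>
  intro T S hT hd c hc hrel
  rcases S.eq_empty_or_nonempty with hS | hS
  · intro g
    rw [hS, Finset.sum_empty]
  by_cases hsep1 : ∀ i ∈ S, ∀ ψ ψ' : T i →+* L,
      (∀ g : L ≃ₐ[ℚ] L, trV (T i) (w i) (g • ψ) = trV (T i) (w i) (g • ψ')) → ψ = ψ'
  · by_cases hsep2 : SepV w T S
    · rcases H2 T S hS hT hsep2 with hsm | hdir
      swap
      · exact hdir c hc hrel
      -- separated: all relations come from smaller fields
      have hcne : ∀ y : SubEmb L T S, subCb κ T S y ≠ y := by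
        rintro ⟨i, ψ⟩ h
        exact sub_ne (φ₀ i) (hκ i) (hT i i.2) ψ (eq_of_heq (Sigma.mk.inj h).2)
      obtain ⟨σ, ⟨⟨i₀, hi₀⟩, ψ⟩, hmove, hinv⟩ := hsm (fun y => c y.1 y.2) (fun y => hc _ _)
        (fun g => by rw [sum_subEmbV T S w c g]; exact hrel g)
      have hmove' : σ • ψ ≠ ψ := by
        intro h
        apply hmove
        change (⟨⟨i₀, hi₀⟩, σ • ψ⟩ : SubEmb L T S) = ⟨⟨i₀, hi₀⟩, ψ⟩
        rw [h]
      choose F hF f' h1 h2 using fun i => exists_sub_factorX (φ₀ i) (T i) (c i)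
      have h3 := h2 i₀ σ ψ hinv
      have hlt := finrank_lt (φ₀ i₀) (hF i₀) hmove' h3
      let S' : Finset ι := S.filter (fun i => NonReal (F i))
      have hodd : ∀ i χ, f' i (κ • χ) = - f' i χ := fun i =>
        odd_of_comp (φ₀ i) (hF i) (h1 i) (hc i)
      have hsum : ∀ {U : Type _} [AddCommGroup U] (u : ∀ i, (E i →+* L) → U) (i : ι)
          (g : L ≃ₐ[ℚ] L), ∑ ψ : (T i →+* L), c i ψ • trV (T i) (u i) (g • ψ) =
          ∑ χ : (F i →+* L), f' i χ • trV (F i) (u i) (g • χ) := by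
        intro U _ u i g
        rw [← sum_rs_leftV (hF i) (u i) (f' i) g]
        exact Finset.sum_congr rfl fun ψ _ => by rw [h1]
      have hsum' : ∀ {U : Type _} [AddCommGroup U] (u : ∀ i, (E i →+* L) → U) (i : ι)
          (g : L ≃ₐ[ℚ] L), ∑ ψ : (T i →+* L), c i ψ • trV (T i) (u i) (g • ψ) =
          ∑ χ : (F i →+* L), f' i χ • trV (F i) (u i) (g • χ) := by
        intro U _ u i g
        rw [← sum_rs_leftV (hF i) (u i) (f' i) g]
        exact Finset.sum_congr rfl fun ψ _ => by rw [h1]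
      have hzero : ∀ {U : Type _} [AddCommGroup U] (u : ∀ i, (E i →+* L) → U) (i : ι),
          ¬ NonReal (F i) → ∀ g : L ≃ₐ[ℚ] L,
          ∑ χ : (F i →+* L), f' i χ • trV (F i) (u i) (g • χ) = 0 := by
        intro U _ u i hi g
        refine Finset.sum_eq_zero fun χ _ => ?_
        rw [zero_of_real (φ₀ i) (hκ i) hi (hodd i), zero_smul]
      have hzero' : ∀ {U : Type _} [AddCommGroup U] (u : ∀ i, (E i →+* L) → U) (i : ι),
          ¬ NonReal (F i) → ∀ g : L ≃ₐ[ℚ] L,
          ∑ χ : (F i →+* L), f' i χ • trV (F i) (u i) (g • χ) = 0 := by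
        intro U _ u i hi g
        refine Finset.sum_eq_zero fun χ _ => ?_
        rw [zero_of_real (φ₀ i) (hκ i) hi (hodd i), zero_smul]
      have hrank : ∑ i ∈ S', finrank ℚ (F i) < d := by
        rw [← hd]
        calc ∑ i ∈ S', finrank ℚ (F i) ≤ ∑ i ∈ S, finrank ℚ (F i) :=
              Finset.sum_le_sum_of_subset (Finset.filter_subset _ _)
          _ < ∑ i ∈ S, finrank ℚ (T i) :=
              Finset.sum_lt_sum (fun i _ => finrank_le (hF i)) ⟨i₀, hi₀, hlt⟩
      have key := ih _ hrank F S' (fun i hi => (Finset.mem_filter.1 hi).2) rfl f' hodd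
        (fun g => by
          rw [← hrel g, Finset.sum_congr rfl (fun i (_ : i ∈ S) => hsum w i g)]
          exact Finset.sum_filter_of_ne fun i _ hne => by
            by_contra hcon
            exact hne (hzero w i hcon g))
      intro g
      rw [← key g, Finset.sum_congr rfl (fun i (_ : i ∈ S) => hsum' e i g)]
      exact (Finset.sum_filter_of_ne fun i _ hne => by
        by_contra hcon
        exact hne (hzero' e i hcon g)).symm
    · -- two proportional traces of different members: merge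
      unfold SepV at hsep2
      push Not at hsep2
      obtain ⟨⟨⟨i, hi⟩, ψ⟩, ⟨⟨k, hk⟩, ψ'⟩, m, n, hm, hn, hh, hne⟩ := hsep2
      change ∀ g : L ≃ₐ[ℚ] L, m • trV (T i) (w i) (g • ψ) = n • trV (T k) (w k) (g • ψ') at hh
      have hik : i ≠ k := by
        rintro rfl
        obtain ⟨u, rfl⟩ := MulAction.exists_smul_eq (L ≃ₐ[ℚ] L) ψ ψ'
        apply hne
        rw [← hsep1 i hi ψ (u • ψ) (orbit_propV (trV (T i) (w i)) ψ u m n hm hn hh)]
      have he2 := H1 T i k (hT i hi) (hT k hk) ψ ψ' m n hm hn hh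
      obtain ⟨β, hβ, hβψ⟩ := exists_equi (G := L ≃ₐ[ℚ] L) (x := ψ) (x' := ψ') (by
        intro g hg
        symm
        refine hsep1 i hi _ _ fun h => ?_
        apply zs_cancel' hm.ne'
        rw [hh h, ← mul_smul h g ψ, hh (h * g), mul_smul h g ψ', hg])
      have hprop : ∀ {U : Type _} [AddCommGroup U] (u : ∀ i, (E i →+* L) → U),
          (∀ g : L ≃ₐ[ℚ] L, m • trV (T i) (u i) (g • ψ) = n • trV (T k) (u k) (g • ψ')) →
          ∀ (g : L ≃ₐ[ℚ] L), n • ∑ χ : (T k →+* L), c k χ • trV (T k) (u k) (g • χ) =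
            m • ∑ χ : (T i →+* L), fs β (c k) χ • trV (T i) (u i) (g • χ) := by
        intro U _ u hu g
        rw [← sum_fsV β (c k) (fun χ => trV (T i) (u i) (g • χ)), Finset.smul_sum,
          Finset.smul_sum]
        refine Finset.sum_congr rfl fun χ _ => ?_
        obtain ⟨t, rfl⟩ := MulAction.exists_smul_eq (L ≃ₐ[ℚ] L) ψ' χ
        rw [hβ, hβψ, smul_comm n, smul_comm m, ← mul_smul g t ψ, ← mul_smul g t ψ', hu]
      have hprop' : ∀ {U : Type _} [AddCommGroup U] (u : ∀ i, (E i →+* L) → U),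
          (∀ g : L ≃ₐ[ℚ] L, m • trV (T i) (u i) (g • ψ) = n • trV (T k) (u k) (g • ψ')) →
          ∀ (g : L ≃ₐ[ℚ] L), n • ∑ χ : (T k →+* L), c k χ • trV (T k) (u k) (g • χ) =
            m • ∑ χ : (T i →+* L), fs β (c k) χ • trV (T i) (u i) (g • χ) := by
        intro U _ u hu g
        rw [← sum_fsV β (c k) (fun χ => trV (T i) (u i) (g • χ)), Finset.smul_sum,
          Finset.smul_sum]
        refine Finset.sum_congr rfl fun χ _ => ?_
        obtain ⟨t, rfl⟩ := MulAction.exists_smul_eq (L ≃ₐ[ℚ] L) ψ' χ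
        rw [hβ, hβψ, smul_comm n, smul_comm m, ← mul_smul g t ψ, ← mul_smul g t ψ', hu]
      let c' : ∀ j, (T j →+* L) → ℤ :=
        Function.update (fun j χ => n * c j χ) i (fun χ => n * c i χ + m * fs β (c k) χ)
      have hc'i : c' i = fun χ => n * c i χ + m * fs β (c k) χ := Function.update_self ..
      have hc'j : ∀ j, j ≠ i → c' j = fun χ => n * c j χ := fun j hj =>
        Function.update_of_ne hj ..
      have hi' : i ∈ S.erase k := Finset.mem_erase.2 ⟨hik, hi⟩
      have hmerge : ∀ {U : Type _} [AddCommGroup U] (u : ∀ i, (E i →+* L) → U),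
          (∀ g : L ≃ₐ[ℚ] L, n • ∑ χ : (T k →+* L), c k χ • trV (T k) (u k) (g • χ) =
            m • ∑ χ : (T i →+* L), fs β (c k) χ • trV (T i) (u i) (g • χ)) →
          ∀ g : L ≃ₐ[ℚ] L, ∑ j ∈ S.erase k, ∑ χ : (T j →+* L), c' j χ • trV (T j) (u j) (g • χ) =
            n • ∑ j ∈ S, ∑ χ : (T j →+* L), c j χ • trV (T j) (u j) (g • χ) := by
        intro U _ u hu g
        rw [← Finset.add_sum_erase S _ hk, smul_add, hu g, ← Finset.add_sum_erase _ _ hi',
          ← Finset.add_sum_erase (S.erase k)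
            (fun j => ∑ χ : (T j →+* L), c j χ • trV (T j) (u j) (g • χ)) hi', hc'i]
        have e1 : ∑ χ : (T i →+* L), (n * c i χ + m * fs β (c k) χ) •
            trV (T i) (u i) (g • χ) = n • ∑ χ : (T i →+* L), c i χ • trV (T i) (u i) (g • χ) +
            m • ∑ χ : (T i →+* L), fs β (c k) χ • trV (T i) (u i) (g • χ) := by
          rw [Finset.smul_sum, Finset.smul_sum, ← Finset.sum_add_distrib]
          refine Finset.sum_congr rfl fun χ _ => ?_
          rw [add_smul, mul_smul, mul_smul]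
        have e2 : ∑ j ∈ (S.erase k).erase i, ∑ χ : (T j →+* L),
            c' j χ • trV (T j) (u j) (g • χ) = n • ∑ j ∈ (S.erase k).erase i,
            ∑ χ : (T j →+* L), c j χ • trV (T j) (u j) (g • χ) := by
          rw [Finset.smul_sum]
          refine Finset.sum_congr rfl fun j hj => ?_
          rw [hc'j j (Finset.ne_of_mem_erase hj), Finset.smul_sum]
          refine Finset.sum_congr rfl fun χ _ => ?_
          rw [mul_smul]
        rw [e1, e2, smul_add]
        abel
      have hmerge' : ∀ {U : Type _} [AddCommGroup U] (u : ∀ i, (E i →+* L) → U),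
          (∀ g : L ≃ₐ[ℚ] L, n • ∑ χ : (T k →+* L), c k χ • trV (T k) (u k) (g • χ) =
            m • ∑ χ : (T i →+* L), fs β (c k) χ • trV (T i) (u i) (g • χ)) →
          ∀ g : L ≃ₐ[ℚ] L, ∑ j ∈ S.erase k, ∑ χ : (T j →+* L), c' j χ • trV (T j) (u j) (g • χ) =
            n • ∑ j ∈ S, ∑ χ : (T j →+* L), c j χ • trV (T j) (u j) (g • χ) := by
        intro U _ u hu g
        rw [← Finset.add_sum_erase S _ hk, smul_add, hu g, ← Finset.add_sum_erase _ _ hi',
          ← Finset.add_sum_erase (S.erase k)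
            (fun j => ∑ χ : (T j →+* L), c j χ • trV (T j) (u j) (g • χ)) hi', hc'i]
        have e1 : ∑ χ : (T i →+* L), (n * c i χ + m * fs β (c k) χ) •
            trV (T i) (u i) (g • χ) = n • ∑ χ : (T i →+* L), c i χ • trV (T i) (u i) (g • χ) +
            m • ∑ χ : (T i →+* L), fs β (c k) χ • trV (T i) (u i) (g • χ) := by
          rw [Finset.smul_sum, Finset.smul_sum, ← Finset.sum_add_distrib]
          refine Finset.sum_congr rfl fun χ _ => ?_
          rw [add_smul, mul_smul, mul_smul]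
        have e2 : ∑ j ∈ (S.erase k).erase i, ∑ χ : (T j →+* L),
            c' j χ • trV (T j) (u j) (g • χ) = n • ∑ j ∈ (S.erase k).erase i,
            ∑ χ : (T j →+* L), c j χ • trV (T j) (u j) (g • χ) := by
          rw [Finset.smul_sum]
          refine Finset.sum_congr rfl fun j hj => ?_
          rw [hc'j j (Finset.ne_of_mem_erase hj), Finset.smul_sum]
          refine Finset.sum_congr rfl fun χ _ => ?_
          rw [mul_smul]
        rw [e1, e2, smul_add]
        abel
      have hrank : ∑ j ∈ S.erase k, finrank ℚ (T j) < d := by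
        rw [← hd, ← Finset.add_sum_erase S _ hk]
        have h1 : 0 < finrank ℚ (T k) := finrank_pos
        omega
      have hc'odd : ∀ j χ, c' j (κ • χ) = - c' j χ := by
        intro j χ
        by_cases hj : j = i
        · subst hj
          rw [hc'i]
          change n * c j (κ • χ) + m * fs β (c k) (κ • χ) = - (n * c j χ + m * fs β (c k) χ)
          rw [hc, fs_odd (sub_invol (φ₀ k) (hκ k) (T k)) (sub_invol (φ₀ j) (hκ j) (T j)) β
            (fun χ => hβ κ χ) (hc k)]
          ring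
        · rw [hc'j j hj]
          change n * c j (κ • χ) = - (n * c j χ)
          rw [hc]
          ring
      have key := ih _ hrank T (S.erase k) (fun j hj => hT j (Finset.mem_of_mem_erase hj)) rfl c'
        hc'odd (fun g => by rw [hmerge w (hprop w hh) g, hrel g, smul_zero])
      intro g
      have h1 := key g
      rw [hmerge' e (hprop' e he2) g] at h1
      exact zs_cancel hn.ne' h1
  · push Not at hsep1
    obtain ⟨i₀, hi₀, ψ, ψ', heq, hne⟩ := hsep1
    have : Nonempty V := ⟨0⟩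
    choose F hF f h1 h2 using fun i => exists_sub_factorX (φ₀ i) (T i) (trV (T i) (w i))
    obtain ⟨σ, rfl⟩ := MulAction.exists_smul_eq (L ≃ₐ[ℚ] L) ψ ψ'
    have h3 := h2 i₀ σ ψ (fun g => (heq g).symm)
    have hlt := finrank_lt (φ₀ i₀) (hF i₀) hne h3.symm
    have hfe : ∀ i, ∃ fe : (F i →+* L) → V', i ∈ S →
        ∀ ψ, trV (T i) (e i) ψ = fe (rs (hF i) ψ) := by
      intro i
      by_cases hi : i ∈ S
      · have hwd : ∀ ψ ψ' : T i →+* L, rs (hF i) ψ = rs (hF i) ψ' →
            trV (T i) (e i) ψ = trV (T i) (e i) ψ' := by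
          intro ψ ψ' h
          have h4 := H1 T i i (hT i hi) (hT i hi) ψ ψ' 1 1 one_pos one_pos (fun g => by
            rw [h1, h1, rs_smul, rs_smul, h]) 1
          rw [one_smul, one_smul, one_smul, one_smul] at h4
          exact h4
        choose s hs using rs_surjective (L := L) (φ₀ i) (hF i)
        refine ⟨fun χ => trV (T i) (e i) (s χ), fun _ ψ => hwd _ _ (hs _).symm⟩
      · exact ⟨fun _ => 0, fun h => absurd h hi⟩
    choose fe hfe using hfe
    let S' : Finset ι := S.filter (fun i => NonReal (F i))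
    let D : ι → ℤ := fun i => dg (φ₀ i) (hF i)
    have hD : ∀ i, 0 < D i := fun i => dg_pos _ _
    have hfodd : ∀ i χ, f i (κ • χ) = - f i χ := fun i =>
      odd_of_compV (φ₀ i) (hF i) (h1 i) (trV_odd (φ₀ i) (hκ i) (T i) (hw i))
    have hfeodd : ∀ i ∈ S, ∀ χ, fe i (κ • χ) = - fe i χ := fun i hi =>
      odd_of_compV (φ₀ i) (hF i) (hfe i hi) (trV_odd (φ₀ i) (hκ i) (T i) (he i))
    let P : ℤ := ∏ i, D i
    have hP : 0 < P := Finset.prod_pos fun i _ => hD i
    have hdvd : ∀ i, ∃ a : ℤ, 0 < a ∧ D i * a = P := by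
      intro i
      obtain ⟨a, ha⟩ := Finset.dvd_prod_of_mem D (Finset.mem_univ i)
      refine ⟨a, ?_, ha.symm⟩
      have h4 : 0 < D i * a := by rw [← ha]; exact hP
      exact pos_of_mul_pos_right h4 (hD i).le
    choose a ha0 ha using hdvd
    have hgen : ∀ {U : Type _} [AddCommGroup U] (u : ∀ i, (E i →+* L) → U) (i : ι)
        (fu : (F i →+* L) → U) (hfu : ∀ ψ, trV (T i) (u i) ψ = fu (rs (hF i) ψ))
        (g : L ≃ₐ[ℚ] L), ∑ ψ : (T i →+* L), c i ψ • trV (T i) (u i) (g • ψ) =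
          ∑ χ : (F i →+* L), fs (rs (hF i)) (c i) χ • fu (g • χ) := by
      intro U _ u i fu hfu g
      rw [← sum_fsV (rs (hF i)) (c i) (fun χ => fu (g • χ))]
      exact Finset.sum_congr rfl fun ψ _ => by rw [hfu, rs_smul]
    have hgen' : ∀ {U : Type _} [AddCommGroup U] (u : ∀ i, (E i →+* L) → U) (i : ι)
        (fu : (F i →+* L) → U) (hfu : ∀ ψ, trV (T i) (u i) ψ = fu (rs (hF i) ψ))
        (g : L ≃ₐ[ℚ] L), ∑ ψ : (T i →+* L), c i ψ • trV (T i) (u i) (g • ψ) =
          ∑ χ : (F i →+* L), fs (rs (hF i)) (c i) χ • fu (g • χ) := by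
      intro U _ u i fu hfu g
      rw [← sum_fsV (rs (hF i)) (c i) (fun χ => fu (g • χ))]
      exact Finset.sum_congr rfl fun ψ _ => by rw [hfu, rs_smul]
    have hscale : ∀ {U : Type _} [AddCommGroup U] (u : ∀ i, (E i →+* L) → U) (i : ι)
        (fu : (F i →+* L) → U) (hfu : ∀ ψ, trV (T i) (u i) ψ = fu (rs (hF i) ψ))
        (g : L ≃ₐ[ℚ] L),
        ∑ χ : (F i →+* L), (a i * fs (rs (hF i)) (c i) χ) • trV (F i) (u i) (g • χ) =
          P • ∑ χ : (F i →+* L), fs (rs (hF i)) (c i) χ • fu (g • χ) := by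
      intro U _ u i fu hfu g
      rw [Finset.smul_sum]
      refine Finset.sum_congr rfl fun χ _ => ?_
      rw [trV_dg (φ₀ i) (hF i) hfu, ← mul_smul, ← mul_smul, ← ha i]
      congr 1
      change a i * fs (rs (hF i)) (c i) χ * D i = D i * a i * fs (rs (hF i)) (c i) χ
      ring
    have hscale' : ∀ {U : Type _} [AddCommGroup U] (u : ∀ i, (E i →+* L) → U) (i : ι)
        (fu : (F i →+* L) → U) (hfu : ∀ ψ, trV (T i) (u i) ψ = fu (rs (hF i) ψ))
        (g : L ≃ₐ[ℚ] L),
        ∑ χ : (F i →+* L), (a i * fs (rs (hF i)) (c i) χ) • trV (F i) (u i) (g • χ) =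
          P • ∑ χ : (F i →+* L), fs (rs (hF i)) (c i) χ • fu (g • χ) := by
      intro U _ u i fu hfu g
      rw [Finset.smul_sum]
      refine Finset.sum_congr rfl fun χ _ => ?_
      rw [trV_dg (φ₀ i) (hF i) hfu, ← mul_smul, ← mul_smul, ← ha i]
      congr 1
      change a i * fs (rs (hF i)) (c i) χ * D i = D i * a i * fs (rs (hF i)) (c i) χ
      ring
    have hzw : ∀ i, ¬ NonReal (F i) → ∀ g : L ≃ₐ[ℚ] L,
        ∑ ψ : (T i →+* L), c i ψ • trV (T i) (w i) (g • ψ) = 0 := by
      intro i hi g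
      refine Finset.sum_eq_zero fun ψ _ => ?_
      rw [h1, zero_of_realV (φ₀ i) (hκ i) hi (hfodd i), smul_zero]
    have hze : ∀ i ∈ S, ¬ NonReal (F i) → ∀ g : L ≃ₐ[ℚ] L,
        ∑ ψ : (T i →+* L), c i ψ • trV (T i) (e i) (g • ψ) = 0 := by
      intro i hiS hi g
      refine Finset.sum_eq_zero fun ψ _ => ?_
      rw [hfe i hiS, zero_of_realV (φ₀ i) (hκ i) hi (hfeodd i hiS), smul_zero]
    have hrank : ∑ i ∈ S', finrank ℚ (F i) < d := by
      rw [← hd]
      calc ∑ i ∈ S', finrank ℚ (F i) ≤ ∑ i ∈ S, finrank ℚ (F i) :=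
            Finset.sum_le_sum_of_subset (Finset.filter_subset _ _)
        _ < ∑ i ∈ S, finrank ℚ (T i) :=
            Finset.sum_lt_sum (fun i _ => finrank_le (hF i)) ⟨i₀, hi₀, hlt⟩
    have key := ih _ hrank F S' (fun i hi => (Finset.mem_filter.1 hi).2) rfl
      (fun i χ => a i * fs (rs (hF i)) (c i) χ)
      (fun i χ => by
        rw [fs_odd (sub_invol (φ₀ i) (hκ i) (T i)) (sub_invol (φ₀ i) (hκ i) (F i)) (rs (hF i))
          (fun ψ => rs_smul (hF i) κ ψ) (hc i)]
        ring)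
      (fun g => by
        have h4 : ∀ i ∈ S', ∑ χ : (F i →+* L), (a i * fs (rs (hF i)) (c i) χ) •
            trV (F i) (w i) (g • χ) =
            P • ∑ ψ : (T i →+* L), c i ψ • trV (T i) (w i) (g • ψ) := by
          intro i _
          rw [hscale w i (f i) (h1 i) g, hgen w i (f i) (h1 i) g]
        rw [Finset.sum_congr rfl h4, ← Finset.smul_sum]
        have h5 : ∑ i ∈ S', ∑ ψ : (T i →+* L), c i ψ • trV (T i) (w i) (g • ψ) =
            ∑ i ∈ S, ∑ ψ : (T i →+* L), c i ψ • trV (T i) (w i) (g • ψ) :=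
          Finset.sum_filter_of_ne fun i _ hne => by
            by_contra hcon
            exact hne (hzw i hcon g)
        rw [h5, hrel g, smul_zero])
    intro g
    have h4 : ∀ i ∈ S', ∑ χ : (F i →+* L), (a i * fs (rs (hF i)) (c i) χ) •
        trV (F i) (e i) (g • χ) =
        P • ∑ ψ : (T i →+* L), c i ψ • trV (T i) (e i) (g • ψ) := by
      intro i hi
      have hiS := (Finset.mem_filter.1 hi).1
      rw [hscale' e i (fe i) (hfe i hiS) g, hgen' e i (fe i) (hfe i hiS) g]
    have h5 := key g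
    rw [Finset.sum_congr rfl h4, ← Finset.smul_sum] at h5
    have h6 : ∑ i ∈ S', ∑ ψ : (T i →+* L), c i ψ • trV (T i) (e i) (g • ψ) =
        ∑ i ∈ S, ∑ ψ : (T i →+* L), c i ψ • trV (T i) (e i) (g • ψ) :=
      Finset.sum_filter_of_ne fun i hi hne => by
        by_contra hcon
        exact hne (hze i hi hcon g)
    rw [h6] at h5
    exact zs_cancel hP.ne' h5

end

end Pool.Agent.TH127.PG
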