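import Mathlib
import Pool.Agent.TH127.PG.Transfer

/-!
# Families of CM types: relations between the periods, with good classes
-/

set_option linter.unusedSectionVars false
set_option linter.unusedVariables false

namespace Pool.Agent.TH127.PG

open NumberField Pool.Agent.H204R3.CM Pool.Agent.W547.KB Pool.Agent.W537.PC Module
  Pool.Agent.W527 Pool.Agent.W527.Dec Pool.Agent.W527.Struct Pool.Agent.H977R3.WN
  Pool.Agent.W527.Vec Pool.Agent.TH127.SC

noncomputable section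

variable {ι : Type} [Fintype ι] (A : ι → CMPair) {L : Type} [Field L] [NumberField L]
  [IsCMField L] [IsGalois ℚ L] (j : L →+* ℂ) (P : PeriodSystem)

/-- The hypothesis on separated families. -/
def GoodSep (L : Type) [Field L] [NumberField L] [IsCMField L] [IsGalois ℚ L] (j : L →+* ℂ)
    (P : PeriodSystem) : Prop :=
  ∀ (T : ∀ i, IntermediateField ℚ (A i).E) (S : Finset ι), S.Nonempty →
    (∀ i ∈ S, NonReal (T i)) → SepV (L := L) (ee A j) T S →
    (SmallV (Y := SubEmb L T S) (subCb (cc L) T S) (L ≃ₐ[ℚ] L) ∨ GoodFam (cc L) T S) ∨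
      Direct (cc L) (ww A j P) (ee A j) T S

variable {P A j} in
/-- **All relations between the periods come from the types.** -/
theorem rel_transfer (hD : P.Deligne)
    (hj : ∀ i, ∀ ψ : (A i).E →+* ℂ, ∃ φ : (A i).E →+* L, j.comp φ = ψ)
    (H1 : TwoTerm (ww A j P) (ee A j)) (H2 : GoodSep A L j P)
    (c : ∀ i, ((A i).E →+* L) → ℤ) (hc : ∀ i φ, c i (cbar φ) = - c i φ)
    (hWrel : ∀ g : L ≃ₐ[ℚ] L, ∑ i, ∑ φ : (A i).E →+* L, c i φ • ww A j P i (g • φ) = 0)
    (σ : L ≃ₐ[ℚ] L) : ∑ i, ∑ φ : (A i).E →+* L, c i φ • ee A j i (σ • φ) = 0 := by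
  classical
  have hκ : ∀ i, ∀ φ : (A i).E →+* L, cc L • φ = cbar φ := fun i φ => cc_smul j φ
  have φ₀ : ∀ i, ((A i).E →+* L) := fun i => (hj i (Classical.arbitrary _)).choose
  have H2' : ∀ (T : ∀ i, IntermediateField ℚ (A i).E) (S : Finset ι), S.Nonempty →
      (∀ i ∈ S, NonReal (T i)) → SepV (L := L) (ww A j P) T S →
      MovesV (cc L) (ww A j P) T S ∨ Direct (cc L) (ww A j P) (ee A j) T S := by
    intro T S hS hT hsep
    have hsep' : SepV (L := L) (ee A j) T S := by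
      rintro ⟨⟨i, hi⟩, ψ⟩ ⟨⟨i', hi'⟩, ψ'⟩ m n hm hn h
      have h' : ∀ g : L ≃ₐ[ℚ] L, m • trV (T i) (ee A j i) (g • ψ) =
        n • trV (T i') (ee A j i') (g • ψ') := h
      have h'' : ∀ g : L ≃ₐ[ℚ] L, m • trV (T i) (ww A j P i) (g • ψ) =
        n • trV (T i') (ww A j P i') (g • ψ') := fun g => deligne_two A j hD h' g
      exact hsep ⟨⟨i, hi⟩, ψ⟩ ⟨⟨i', hi'⟩, ψ'⟩ m n hm hn h''
    rcases H2 T S hS hT hsep' with (h1 | h1) | h1
    · exact Or.inl (movesV_of_small hκ φ₀ (ww_odd A j hD) T S hT h1 hsep)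
    · exact Or.inl (movesV_of_good hκ φ₀ (ww_odd A j hD) T S hT h1 hsep)
    · exact Or.inr h1
  have hreal : ∀ i ∈ (Finset.univ : Finset ι), NonReal (⊤ : IntermediateField ℚ (A i).E) :=
    fun i _ => top_nonReal (E := fun i => (A i).E) i (φ₀ i)
  have hcκ : ∀ (i : ι) (ψ : (⊤ : IntermediateField ℚ (A i).E) →+* L),
      c i (topE.symm (cc L • ψ)) = - c i (topE.symm ψ) := by
    intro i ψ
    rw [symm_smul, hκ, hc]
  have hrelT : ∀ g : L ≃ₐ[ℚ] L, ∑ i ∈ (Finset.univ : Finset ι),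
      ∑ ψ : (⊤ : IntermediateField ℚ (A i).E) →+* L,
        c i (topE.symm ψ) • trV ⊤ (ww A j P i) (g • ψ) = 0 := by
    intro g
    rw [← hWrel g]
    exact Finset.sum_congr rfl fun i _ => sum_topV (c i) (ww A j P i) g
  have key := Pool.Agent.TH127.PG.transfer (E := fun i => (A i).E) (V := VV) (V' := ℚ)
    (κ := cc L) hκ φ₀
    (w := ww A j P) (ww_odd A j hD) (e := ee A j) (ee_odd A j) H1 H2'
    (∑ i ∈ (Finset.univ : Finset ι), finrank ℚ (⊤ : IntermediateField ℚ (A i).E))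
    (fun _ => ⊤) Finset.univ hreal rfl (fun i ψ => c i (topE.symm ψ)) hcκ hrelT
  rw [← key σ]
  exact (Finset.sum_congr rfl fun i _ => sum_topV (c i) (ee A j i) σ).symm

variable {P A j} in
/-- **De Rham-Betti classes are Hodge classes if the relations with two terms are explained.** -/
theorem hodge_of_good (hD : P.Deligne)
    (hj : ∀ i, ∀ ψ : (A i).E →+* ℂ, ∃ φ : (A i).E →+* L, j.comp φ = ψ)
    (H1 : TwoTerm (ww A j P) (ee A j)) (H2 : GoodSep A L j P)
    {J : Type} [Fintype J] (t : J → ι) (k : ℕ)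
    (f : (productOf A t).H1 [⋀^Fin (2 * k)]→ₗ[ℚ] ℚ) (hf : P.IsDRB (productOf A t) k f) :
    IsHodge (productOf A t).per f := by
  classical
  have hκ : ∀ i, ∀ φ : (A i).E →+* L, cc L • φ = cbar φ := fun i φ => cc_smul j φ
  have φ₀ : ∀ i, ((A i).E →+* L) := fun i => (hj i (Classical.arbitrary _)).choose
  refine hodge_of_drb_alg j P (productOf A t) (fun a => hj (t a)) k (fun I hI => ?_) f hf
  let y : Fin (2 * k) → EE A L := fun l => ⟨t (I l).1, (I l).2⟩
  let cb : EE A L → EE A L := fun z => ⟨z.1, cbar z.2⟩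
  have hcb : Function.Involutive cb := fun z => by simp only [cb, cbar_cbar]
  let N : EE A L → ℤ := fun z => ((Finset.univ.filter (fun l => y l = z)).card : ℤ)
  have hN : ∀ {U : Type} [AddCommGroup U] (F : EE A L → U), ∑ z, N z • F z = ∑ l, F (y l) := by
    intro U _ F
    have h3 : ∀ z, N z • F z = ∑ l, if y l = z then F z else 0 := by
      intro z
      rw [← Finset.sum_filter, Finset.sum_const, natCast_zsmul]
    rw [Finset.sum_congr rfl (fun z _ => h3 z), Finset.sum_comm]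
    refine Finset.sum_congr rfl fun l _ => ?_
    rw [Finset.sum_ite_eq Finset.univ (y l), if_pos (Finset.mem_univ _)]
  have hN2 : ∀ {U : Type} [AddCommGroup U] (F : EE A L → U), (∀ z, F (cb z) = - F z) →
      ∑ z, (N z - N (cb z)) • F z = (2 : ℤ) • ∑ l, F (y l) := by
    intro U _ F hF
    have h3 : ∑ z, N (cb z) • F z = - ∑ l, F (y l) := by
      rw [← hN F, ← Finset.sum_neg_distrib, ← Equiv.sum_comp (hcb.toPerm cb)]
      refine Finset.sum_congr rfl fun z _ => ?_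
      change N (cb (cb z)) • F (cb z) = _
      rw [hcb z, hF, smul_neg]
    simp only [sub_smul]
    rw [Finset.sum_sub_distrib, h3, hN F, sub_neg_eq_add, two_zsmul]
  let c : ∀ i, ((A i).E →+* L) → ℤ := fun i φ => N ⟨i, φ⟩ - N (cb ⟨i, φ⟩)
  have hc : ∀ i φ, c i (cbar φ) = - c i φ := by
    intro i φ
    change N ⟨i, cbar φ⟩ - N ⟨i, cbar (cbar φ)⟩ = - (N ⟨i, φ⟩ - N ⟨i, cbar φ⟩)
    rw [cbar_cbar]
    ring
  have hcg : ∀ (g : L ≃ₐ[ℚ] L) (i : ι) (φ : (A i).E →+* L), g • cbar φ = cbar (g • φ) :=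
    fun g i φ => rfl
  have hWrel : ∀ g : L ≃ₐ[ℚ] L, ∑ i, ∑ φ : (A i).E →+* L, c i φ • ww A j P i (g • φ) = 0 := by
    intro g
    have h1 := hN2 (fun z : EE A L => ww A j P z.1 (g • z.2)) (fun z => by
      change ww A j P z.1 (g • cbar z.2) = _
      rw [hcg, ww_odd A j hD])
    rw [Fintype.sum_sigma] at h1
    refine Eq.trans h1 ?_
    have h2 : ∑ l, ww A j P (y l).1 (g • (y l).2) = 0 := hI g
    rw [h2, smul_zero]
  intro σ
  have h2 : ∑ i, ∑ φ : (A i).E →+* L, c i φ • ee A j i (σ • φ) = 0 :=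
    rel_transfer hD hj H1 H2 c hc hWrel σ
  have h3 := hN2 (fun z : EE A L => ee A j z.1 (σ • z.2)) (fun z => by
      change ee A j z.1 (σ • cbar z.2) = _
      rw [hcg, ee_odd A j])
  rw [Fintype.sum_sigma] at h3
  have h4 : (2 : ℤ) • ∑ l, ee A j (y l).1 (σ • (y l).2) = 0 := h3.symm.trans h2
  have h5 : ∑ l, ee A j (y l).1 (σ • (y l).2) = 0 := zs_cancel two_ne_zero h4
  have h6 : ((∑ l, (⟨(productOf A t).factor (I l).1, (I l).2⟩ : Letter L).s j σ : ℤ) : ℚ) = 0 := by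
    push_cast
    exact h5
  exact_mod_cast h6


end

end Pool.Agent.TH127.PG
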