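import Mathlib
import Pool.Agent.TH127.PG.Main
import Pool.Agent.TH127.SC.Single
import Pool.Agent.TH127.PG.Defs

/-!
# De Rham-Betti classes on products of abelian varieties of CM type with good classes
-/

set_option linter.unusedSectionVars false
set_option linter.unusedVariables false

namespace Pool.Agent.TH127.PG

open NumberField Pool.Agent.H204R3.CM Pool.Agent.W547.KB Pool.Agent.W537.PC Module
  Pool.Agent.W527 Pool.Agent.W527.Dec Pool.Agent.W527.Struct Pool.Agent.H977R3.WN
  Pool.Agent.W527.Vec Pool.Agent.W527.Per Pool.Agent.TH127.SC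

theorem abelianMildOrGood_of_mild {ι : Type} {A : ι → CMPair} (h : AbelianOrMild A) :
    AbelianMildOrGood A := fun T S hS hT hsep => (h T S hS hT hsep).imp_right Or.inl

variable {ι : Type} [Fintype ι] (A : ι → CMPair)

theorem abelianMildOrGood_of_good (h : ∀ x : Embs (fun i => (A i).E), Good x) :
    AbelianMildOrGood A := by
  intro T S hS hT _
  obtain ⟨i, hi⟩ := hS
  have hT' : ∀ i ∈ S, ¬ IsTotallyReal (T i) := by
    intro i hi
    have h1 := hT i hi
    rw [← nonReal_iff]
    exact (nonReal_iff _).2 h1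
  obtain ⟨φ⟩ : Nonempty ((A i).E →+* ℂ) := inferInstance
  exact Or.inr (Or.inr ⟨_, good_family (K := fun i => (A i).E) T S hT' i hi φ (h ⟨i, φ⟩)⟩)

noncomputable section

variable {L : Type} [Field L] [NumberField L]
  [IsCMField L] [IsGalois ℚ L] (j : L →+* ℂ) {P : PeriodSystem}
  (hj : ∀ i, ∀ ψ : (A i).E →+* ℂ, ∃ φ : (A i).E →+* L, j.comp φ = ψ)

include hj in
theorem goodSep_of (hB : P.Bost) (hD : P.Deligne) (h : AbelianMildOrGood A) :
    GoodSep A L j P := by
  intro T S hS hT hsep
  rcases h T S hS (fun i hi => (nonReal_iff _).1 (hT i hi)) (separated_of A j hj T S hsep) with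
    h1 | h1 | h1
  · exact Or.inr (direct_of_comm A j hB hD T S fun i hi => commAct_of (h1 i hi) j)
  · exact Or.inl (Or.inl (small_of_mildFamily A j hj T S h1))
  · exact Or.inl (Or.inr (goodFam_of_good (E := fun i => (A i).E) j hj
      (fun x => (emb_cc j x).symm) T S h1))

end

variable {P : PeriodSystem}

/-- The criterion. -/
theorem allHodge_iff_good (hB : P.Bost) (hD : P.Deligne) (hA : AbelianMildOrGood A) :
    AllHodge P A ↔ TwoTermRelations P A := by
  classical
  rcases isEmpty_or_nonempty ι with hι | hι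
  · constructor
    · intro _ T i
      exact (hι.false i).elim
    · intro _ J _ t k f hf
      have hJ : IsEmpty J := ⟨fun a => hι.false (t a)⟩
      rcases isEmpty_or_nonempty (Fin (2 * k)) with hκ | ⟨⟨k0⟩⟩
      · exact hodge_unit f
      · have h1 : f = 0 := by
          ext v
          have h2 : v k0 = 0 := by
            funext i
            exact (hJ.false i).elim
          rw [f.map_coord_zero k0 h2]
          rfl
        rw [h1]
        exact hodge_zero _ _
  obtain ⟨L, _, _, _, _, j, hj⟩ := exists_cm (⟨ι, A⟩ : CMAV)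
  have hj' : ∀ i, ∀ ψ : (A i).E →+* ℂ, ∃ φ : (A i).E →+* L, j.comp φ = ψ := hj
  rw [twoTerm_iff A j hj']
  constructor
  · intro hall T i i' hi hi' ψ ψ' m n hm hn hh
    have φ₀ : ∀ i, ((A i).E →+* L) := fun i => (hj' i (Classical.arbitrary _)).choose
    have hκ : ∀ i, ∀ φ : (A i).E →+* L, cc L • φ = cbar φ := fun i φ => cc_smul j φ
    obtain ⟨m', rfl⟩ := Int.eq_ofNat_of_zero_le hm.le
    obtain ⟨n', rfl⟩ := Int.eq_ofNat_of_zero_le hn.le
    let N : EE A L → ℕ := fun z =>
      (if hz : z.1 = i then (if res (T i) (hz ▸ z.2) = ψ then m' else 0) else 0) +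
      (if hz : z.1 = i' then (if res (T i') (hz ▸ z.2) = cc L • ψ' then n' else 0) else 0)
    have hN : ∀ {U : Type} [AddCommGroup U] (u : ∀ i, ((A i).E →+* L) → U) (g : L ≃ₐ[ℚ] L),
        ∑ z : EE A L, N z • u z.1 (g • z.2) =
          m' • trV (T i) (u i) (g • ψ) + n' • trV (T i') (u i') (g • cc L • ψ') := by
      intro U _ u g
      simp only [N, add_smul, Finset.sum_add_distrib]
      rw [Fintype.sum_sigma, Fintype.sum_sigma]
      have h1 : ∀ (k : ι) (χ : T k →+* L) (p : ℕ), ∑ i, ∑ φ : (A i).E →+* L,
          (if hz : i = k then (if res (T k) (hz ▸ φ) = χ then p else 0) else 0) •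
            u i (g • φ) = p • trV (T k) (u k) (g • χ) := by
        intro k χ p
        rw [Finset.sum_eq_single k]
        · rw [trV_smul]
          unfold trV fsV
          rw [Finset.smul_sum]
          refine Finset.sum_congr rfl fun φ _ => ?_
          rw [dif_pos rfl]
          by_cases h : res (T k) φ = χ
          · rw [if_pos h, if_pos h]
          · rw [if_neg h, if_neg h, zero_smul, smul_zero]
        · intro i _ hik
          refine Finset.sum_eq_zero fun φ _ => ?_
          rw [dif_neg hik, zero_smul]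
        · intro h
          exact absurd (Finset.mem_univ _) h
      rw [← h1 i ψ m', ← h1 i' (cc L • ψ') n']
    have key := rel_of_hodge hall N (fun g => by
      rw [hN (ww A j P) g, sub_comm (φ₀ i') (hκ i'), trV_odd (φ₀ i') (hκ i') (T i')
        (ww_odd A j hD i'), smul_neg]
      have h1 := hh g
      rw [natCast_zsmul, natCast_zsmul] at h1
      rw [h1, add_neg_cancel])
    intro g
    have h1 := key g
    rw [hN (ee A j) g, sub_comm (φ₀ i') (hκ i'), trV_odd (φ₀ i') (hκ i') (T i')
      (ee_odd A j i'), smul_neg, ← sub_eq_add_neg, sub_eq_zero] at h1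
    rw [natCast_zsmul, natCast_zsmul]
    exact h1
  · intro h J _ t k f hf
    exact hodge_of_good hD hj' h (goodSep_of A j hj' hB hD hA) t k f hf


end Pool.Agent.TH127.PG
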