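import Mathlib
import Pool.Agent.TH127.PG.Final

/-!
# Sufficient conditions
-/

set_option linter.unusedSectionVars false
set_option linter.unusedVariables false

namespace Pool.Agent.TH127.PG

open NumberField Pool.Agent.H204R3.CM Pool.Agent.W547.KB Pool.Agent.W537.PC Module
  Pool.Agent.W527 Pool.Agent.W527.Struct
  Pool.Agent.W527.Per Pool.Agent.TH127.SC

/-- The excess functions on the whole field are `1` or `-1`. -/
theorem abs_excess_top {E : Type} [Field E] [NumberField E] (Φ : Set (E →+* ℂ))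
    {T : IntermediateField ℚ E} (hT : T = ⊤) (ψ : Short.Emb T) : |Short.excess Φ T ψ| = 1 := by
  classical
  subst hT
  let φ₀ : E →+* ℂ := ψ.comp (IntermediateField.topEquiv (F := ℚ) (E := E)).symm.toRingHom
  have key : ∀ φ : E →+* ℂ, Short.Extends φ ψ ↔ φ = φ₀ := by
    intro φ
    constructor
    · intro h
      ext x
      have h1 := RingHom.congr_fun h (⟨x, IntermediateField.mem_top⟩ :
        (⊤ : IntermediateField ℚ E))
      exact h1
    · rintro rfl
      ext x
      rfl
  unfold Short.excess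
  simp only [key]
  by_cases h : φ₀ ∈ Φ
  · have e1 : {φ : Short.Emb E | φ ∈ Φ ∧ φ = φ₀} = {φ₀} := by
      ext φ
      constructor
      · rintro ⟨_, rfl⟩
        rfl
      · rintro rfl
        exact ⟨h, rfl⟩
    have e2 : {φ : Short.Emb E | φ ∉ Φ ∧ φ = φ₀} = ∅ := by
      ext φ
      constructor
      · rintro ⟨h1, rfl⟩
        exact absurd h h1
      · rintro ⟨⟩
    rw [e1, e2, Set.ncard_singleton, Set.ncard_empty]
    norm_num
  · have e1 : {φ : Short.Emb E | φ ∉ Φ ∧ φ = φ₀} = {φ₀} := by
      ext φ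
      constructor
      · rintro ⟨_, rfl⟩
        rfl
      · rintro rfl
        exact ⟨h, rfl⟩
    have e2 : {φ : Short.Emb E | φ ∈ Φ ∧ φ = φ₀} = ∅ := by
      ext φ
      constructor
      · rintro ⟨h1, rfl⟩
        exact absurd h1 h
      · rintro ⟨⟩
    rw [e1, e2, Set.ncard_singleton, Set.ncard_empty]
    norm_num

theorem simpleSubfields_of_rigid {ι : Type} {A : ι → CMPair} (h : Rigid A) :
    SimpleSubfields A := by
  refine ⟨fun i T hT => Or.inr (Or.inl fun ψ ψ' => ?_), fun i i' T T' hii hT hT' hiso => ?_⟩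
  · rw [abs_excess_top _ (h.1 i T hT), abs_excess_top _ (h.1 i T hT)]
  · exfalso
    apply h.2 i i' hii
    obtain ⟨e⟩ := hiso
    have e1 : T ≃+* (A i).E := by
      rw [h.1 i T hT]
      exact (IntermediateField.topEquiv (F := ℚ) (E := (A i).E)).toRingEquiv
    have e2 : T' ≃+* (A i').E := by
      rw [h.1 i' T' hT']
      exact (IntermediateField.topEquiv (F := ℚ) (E := (A i').E)).toRingEquiv
    exact ⟨e1.symm.trans (e.trans e2)⟩

theorem isAbelian_sub {E : Type} [Field E] [NumberField E] (h : IsAbelian E)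
    (T : IntermediateField ℚ E) : IsAbelian T := by
  have h1 : IsGalois ℚ E := h.1
  have h2 : IsAbelianGalois ℚ E := { is_comm := ⟨h.2⟩ }
  have h3 : IsAbelianGalois ℚ T := IsAbelianGalois.tower_bot ℚ T E
  exact ⟨h3.toIsGalois, fun a b => mul_comm' a b⟩

/-- Abelian CM fields. -/
theorem cond_of_abelian {ι : Type} {A : ι → CMPair} (h : ∀ i, IsAbelian (A i).E) :
    AbelianMildOrGood A ∧ SimpleSubfields A :=
  ⟨fun T S _ _ _ => Or.inl fun i _ => isAbelian_sub (h i) (T i),
    ⟨fun i T _ => Or.inl (isAbelian_sub (h i) T), fun i _ T _ _ _ _ _ => isAbelian_sub (h i) T⟩⟩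

end Pool.Agent.TH127.PG
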