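import Mathlib
import Pool.Agent.TH127.SC.Defs
import Pool.Agent.TH127.PT.Rel2
import Pool.Agent.W527.PerDefs

/-!
# De Rham-Betti classes and products of divisor classes: definitions
-/

namespace Pool.Agent.TH127.PG

open NumberField Module Pool.Agent.W547.KB Pool.Agent.W537.PC Pool.Agent.W527.Struct
  Pool.Agent.W527.Per Pool.Agent.W527 Pool.Agent.TH127.SC Pool.Agent.H194R3.CM

variable {ι : Type} (A : ι → CMPair)

/-- The class `f ∈ H^{2m}(X, ℚ)` is a linear combination with rational coefficients of products of
`m` Hodge classes of degree two (classes of divisors). -/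
def IsDivisorial (X : CMAV) (m : ℕ) (f : Coh X (Fin (2 * m))) : Prop :=
  ∀ e : Fin (2 * m) ≃ Fin m × Fin 2, f.domDomCongr e ∈ divisorial X.per m

/-- All de Rham-Betti classes on all products of copies of the `A i` are linear combinations of
products of divisor classes. -/
def AllDRBDivisorial (P : PeriodSystem) : Prop :=
  ∀ (J : Type) [Fintype J] (t : J → ι) (m : ℕ) (f : Coh (productOf A t) (Fin (2 * m))),
    P.IsDRB (productOf A t) m f → IsDivisorial (productOf A t) m f

/-- Every family of CM subfields `T i` of the `E i`, `i ∈ S ≠ ∅`, is mild or has an embedding whose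
class is good. -/
def MildOrGood : Prop :=
  ∀ (T : ∀ i, IntermediateField ℚ (A i).E) (S : Finset ι), S.Nonempty →
    (∀ i ∈ S, IsCM (T i)) → MildFamily A T S ∨ ∃ x : Embs (fun i : S => T i), Good x

/-- The same with the weaker conditions on the moved embeddings that suffice for Hodge classes. -/
def MildOrGoodTypes : Prop :=
  ∀ (T : ∀ i, IntermediateField ℚ (A i).E) (S : Finset ι), S.Nonempty →
    (∀ i ∈ S, IsCM (T i)) →
      (Short.FewPrimes (fun i => (A i).Φ) T S ∨ Short.FewEmbeddings (fun i => (A i).Φ) T S ∨
        Short.OneCycle T S) ∨ ∃ x : Embs (fun i : S => T i), Good x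

/-- The excess functions of different embeddings of CM subfields are not proportional. -/
def SeparatedTypes : Prop := Short.Separated fun i => (A i).Φ

/-- The periods belonging to different embeddings `ψ`, `ψ'` of CM subfields (equal subfields if
they lie in the same `E i`) have no algebraic relations `detPeriod ψ ^ m / detPeriod ψ' ^ n ∈ ℚ̄`,
`m, n > 0`, that hold together with their conjugates. -/
def PeriodsSeparated (P : PeriodSystem) : Prop :=
  ∀ (T : ∀ i, IntermediateField ℚ (A i).E) (i i' : ι) (ψ : Short.Emb (T i))
    (ψ' : Short.Emb (T i')) (m n : ℕ), IsCM (T i) → IsCM (T i') → 0 < m → 0 < n →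
      AlgebraicRatio P (A i) (A i') ψ ψ' m n → Short.Same (X := fun i => Short.Emb (T i)) ψ ψ'

/-- The class of the embedding `x` consists of translates of `x` and has at most two pairs of
conjugate embeddings. -/
def AtMostTwoPairs {J : Type} {F : J → Type} [∀ j, Field (F j)] (x : Embs F) : Prop :=
  Pool.Agent.TH127.PT.TwoPairs (ℂ ≃+* ℂ) Pool.Agent.TH127.SC.bar x

end Pool.Agent.TH127.PG
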