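import Mathlib
import Pool.Agent.TH127.PG.DivDefs
import Pool.Agent.W547.KB.Main

/-!
# Products of Hodge classes of degree two are Hodge classes
-/

set_option linter.unusedSectionVars false
set_option linter.unusedVariables false

namespace Pool.Agent.TH127.PG

open NumberField Module Pool.Agent.W547.KB Pool.Agent.H204R3.CM Pool.Agent.H194R3.CM

noncomputable section

section prod

variable {T : Type} [AddCommGroup T] [Module ℝ T] {m : ℕ}

theorem update_pair [DecidableEq (Fin m × Fin 2)] (u : Fin m × Fin 2 → T) (l l' : Fin m)
    (k : Fin 2) (z : T) :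
    (fun k' => Function.update u (l, k) z (l', k')) =
      if l' = l then Function.update (fun k' => u (l, k')) k z else fun k' => u (l', k') := by
  classical
  by_cases h : l' = l
  · subst h
    rw [if_pos rfl]
    funext k'
    by_cases hk : k' = k
    · subst hk
      rw [Function.update_self, Function.update_self]
    · rw [Function.update_of_ne hk, Function.update_of_ne]
      intro h
      exact hk (Prod.ext_iff.1 h).2
  · rw [if_neg h]
    funext k'
    rw [Function.update_of_ne]
    intro h'
    exact h (Prod.ext_iff.1 h').1

theorem prod_update [DecidableEq (Fin m × Fin 2)]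
    (ψ : Fin m → MultilinearMap ℝ (fun _ : Fin 2 => T) ℝ)
    (u : Fin m × Fin 2 → T) (l : Fin m) (k : Fin 2) (z : T) :
    ∏ l', ψ l' (fun k' => Function.update u (l, k) z (l', k')) =
      ψ l (Function.update (fun k' => u (l, k')) k z) *
        ∏ l' ∈ Finset.univ.erase l, ψ l' (fun k' => u (l', k')) := by
  classical
  rw [← Finset.mul_prod_erase Finset.univ _ (Finset.mem_univ l), update_pair, if_pos rfl]
  congr 1
  refine Finset.prod_congr rfl fun l' hl' => ?_
  rw [update_pair, if_neg (Finset.ne_of_mem_erase hl')]

/-- The product of bilinear forms. -/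
def prodForm (ψ : Fin m → MultilinearMap ℝ (fun _ : Fin 2 => T) ℝ) :
    MultilinearMap ℝ (fun _ : Fin m × Fin 2 => T) ℝ where
  toFun u := ∏ l, ψ l (fun k => u (l, k))
  map_update_add' := by
    intro _ u a x y
    obtain ⟨l, k⟩ := a
    rw [prod_update, prod_update, prod_update, MultilinearMap.map_update_add, add_mul]
  map_update_smul' := by
    intro _ u a c x
    obtain ⟨l, k⟩ := a
    rw [prod_update, prod_update, MultilinearMap.map_update_smul, smul_mul_assoc]

theorem prodForm_apply (ψ : Fin m → MultilinearMap ℝ (fun _ : Fin 2 => T) ℝ)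
    (u : Fin m × Fin 2 → T) : prodForm ψ u = ∏ l, ψ l (fun k => u (l, k)) := rfl

end prod

theorem two_eq {T : Type*} (u : Fin 2 → T) : ![u 0, u 1] = u := by
  funext k
  fin_cases k <;> rfl

/-- Combinations of products of Hodge classes of degree two are Hodge classes. -/
theorem hodge_of_divisorial {X : CMAV} {m : ℕ} {g : X.H1 [⋀^Fin m × Fin 2]→ₗ[ℚ] ℚ}
    (hg : g ∈ divisorial X.per m) : IsHodge X.per g := by
  classical
  unfold divisorial at hg
  induction hg using Submodule.span_induction with
  | mem g h =>
    obtain ⟨B, hB, hg⟩ := h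
    choose ψ h1 h2 using hB
    have key : ∀ u : Fin m × Fin 2 → X.Tan, (MultilinearMap.alternatization (prodForm ψ)) u =
        ∑ σ : Equiv.Perm (Fin m × Fin 2), ((Equiv.Perm.sign σ : ℤ) : ℝ) *
          ∏ l, ψ l (fun k => u (σ (l, k))) := by
      intro u
      rw [MultilinearMap.alternatization_apply]
      refine Finset.sum_congr rfl fun σ _ => ?_
      rw [Units.smul_def, zsmul_eq_mul]
      rfl
    refine ⟨(MultilinearMap.alternatization (prodForm ψ)).toMultilinearMap,
      fun v => ?_, fun z hz u => ?_⟩
    · refine (key _).trans ?_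
      rw [hg v, Rat.cast_sum]
      refine Finset.sum_congr rfl fun σ _ => ?_
      rw [Rat.cast_mul, Rat.cast_prod]
      congr 1
      refine Finset.prod_congr rfl fun l _ => ?_
      rw [← h1 l]
      congr 1
      funext k
      fin_cases k <;> rfl
    · refine (key _).trans (Eq.trans ?_ (key _).symm)
      refine Finset.sum_congr rfl fun σ _ => ?_
      congr 1
      exact Finset.prod_congr rfl fun l _ => h2 l z hz (fun k => u (σ (l, k)))
  | zero => exact hodge_zero X _
  | add f g _ _ hf hg => exact hodge_add hf hg
  | smul a f _ hf => exact hodge_smul a hf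

end

end Pool.Agent.TH127.PG
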