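import Mathlib
import Pool.Agent.TH127.PG.DivHodge
import Pool.Agent.TH127.PG.Cond
import Pool.Agent.TH127.SC.Criterion
import Pool.Agent.TH127.SC.Single
import Pool.Agent.W527.ShortProofs

/-!
# Hodge classes on products of abelian varieties of CM type with good classes of embeddings
-/

set_option linter.unusedSectionVars false
set_option linter.unusedVariables false

namespace Pool.Agent.TH127.PG

open NumberField Module Pool.Agent.W547.KB Pool.Agent.W527 Pool.Agent.H204R3.CM
  Pool.Agent.W527.Struct Pool.Agent.H977R3.WN Pool.Agent.TH127.SC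

variable {ι : Type} {A : ι → CMPair}

theorem mildOrGoodTypes_of (h : MildOrGood A) : MildOrGoodTypes A := by
  intro T S hS hT
  rcases h T S hS hT with (h1 | h1 | h1) | h1
  · obtain ⟨i, hi, ℓ, hℓ, h2, h3⟩ := h1
    exact Or.inl (Or.inl ⟨i, hi, ℓ, hℓ, h2, Or.inl h3⟩)
  · obtain ⟨τ, h2, h3⟩ := h1
    exact Or.inl (Or.inr (Or.inl ⟨τ, h2, Or.inl h3⟩))
  · exact Or.inl (Or.inr (Or.inr h1))
  · exact Or.inr h1

theorem abelianMildOrGood_of_mildOrGood (h : MildOrGood A) : AbelianMildOrGood A :=
  fun T S hS hT _ => Or.inr (h T S hS hT)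

theorem mildOrGood_of_good [Fintype ι] (h : ∀ x : Embs (fun i => (A i).E), Good x) :
    MildOrGood A := by
  intro T S hS hT
  obtain ⟨i, hi⟩ := hS
  have hT' : ∀ i ∈ S, ¬ IsTotallyReal (T i) := fun i hi => hT i hi
  obtain ⟨φ⟩ : Nonempty ((A i).E →+* ℂ) := inferInstance
  exact Or.inr ⟨_, good_family (K := fun i => (A i).E) T S hT' i hi φ (h ⟨i, φ⟩)⟩

variable [Fintype ι]

theorem free_types {L : Type} [Field L] [NumberField L] [IsGalois ℚ L] (j : L →+* ℂ)
    (h : ∀ i, ∀ ψ : (A i).E →+* ℂ, ∃ φ : (A i).E →+* L, j.comp φ = ψ)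
    (hmild : MildOrGoodTypes A) (hsep : SeparatedTypes A) :
    Free (F := fun i => (A i).E) (L := L) (wt (fun i => (A i).Φ) j) := by
  classical
  obtain ⟨⟨κ, hκ', hκ''⟩, hne⟩ := conj_data (K := fun i => (A i).E) j h
  have hodd := fun i φ => wt_odd (L := L) j (fun i => (A i).isCMType) i φ
  refine free_of_good hκ'' hne hodd ?_ ((separated_iff j h).1 (short_separated.1 hsep))
  refine goodL_of hκ'' (fun i => (hne i).some) hodd fun T S hS hT => ?_
  rcases hmild T S hS (fun i hi => (nonReal_iff _).1 (hT i hi)) with (h1 | h1 | h1) | h1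
  · exact Or.inl (Or.inl (fewMoved_of_fewPrimes j h T S (short_fewPrimes h1)))
  · exact Or.inl (Or.inl (fewMoved_of_fewEmbeddings j h T S (short_fewEmbeddings h1)))
  · exact Or.inl (Or.inr (primeCycle_of j h T S hκ' (short_oneCycle h1)))
  · exact Or.inr (goodFam_of_good (E := fun i => (A i).E) j h hκ' T S h1)

/-- Hodge classes on families of separated types. -/
theorem divisorial_of_separated (hmild : MildOrGoodTypes A) (hsep : SeparatedTypes A) :
    Divisorial A := by
  classical
  obtain ⟨L, _, _, j, h⟩ := exists_galois (fun i => (A i).E)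
  intro J _ t m f hf
  exact hodge_of_nondeg (fun i => (A i).isCMType) t j h (free_types j h hmild hsep) f hf

theorem separatedTypes_of_rigid (h : Rigid A) : SeparatedTypes A := by
  refine short_separated.2 (separated_of_real (fun i => (A i).isCMType) (fun i F hF => ?_)
    fun i i' hii => ?_)
  · by_contra hcon
    exact hF (h.1 i F hcon)
  · by_contra hcon
    rw [not_isEmpty_iff] at hcon
    exact h.2 i i' hii hcon

/-- The criterion for Hodge classes. -/
theorem hodge_criterion (hprim : IsPrimitive A) (hmild : MildOrGoodTypes A) :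
    Divisorial A ↔ SeparatedTypes A := by
  classical
  obtain ⟨L, _, _, j, h⟩ := exists_galois (fun i => (A i).E)
  have hΦ : ∀ i, IsCMType (A i).Φ := fun i => (A i).isCMType
  obtain ⟨⟨κ, hκ', hκ''⟩, hne⟩ := conj_data (K := fun i => (A i).E) j h
  constructor
  · intro hall
    have h1 := nondeg_of_all hΦ j h (prim_of_primitive j (short_primitive hprim)) hall
    exact short_separated.2 ((separated_iff j h).2
      (separates_of_free hκ'' hne (fun i φ => wt_odd j hΦ i φ) h1))
  · exact divisorial_of_separated hmild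

/-- The criterion for Hodge classes on all products, in the other notation. -/
theorem divisorial_mem (h : Divisorial A) {J : Type} [Fintype J] (t : J → ι) {m : ℕ}
    {f : Coh (productOf A t) (Fin (2 * m))} (hf : IsHodge (productOf A t).per f) :
    IsDivisorial (productOf A t) m f := by
  intro e
  exact h J t m _ (hodge_reindex e hf)

theorem hodge_of_isDivisorial {X : CMAV} {m : ℕ} {f : Coh X (Fin (2 * m))}
    (hf : IsDivisorial X m f) : IsHodge X.per f := by
  let e : Fin (2 * m) ≃ Fin m × Fin 2 := (finCongr (mul_comm 2 m)).trans finProdFinEquiv.symm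
  have h1 := hodge_reindex e.symm (hodge_of_divisorial (hf e))
  have h2 : (f.domDomCongr e).domDomCongr e.symm = f := by
    ext v
    rw [AlternatingMap.domDomCongr_apply, AlternatingMap.domDomCongr_apply]
    congr 1
    funext k
    simp
  rwa [h2] at h1

end Pool.Agent.TH127.PG
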