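import Mathlib
import Pool.Agent.TH127.PG.HodgeCrit

/-!
# De Rham-Betti classes on products of abelian varieties of CM type: combinations of products of
# divisor classes
-/

set_option linter.unusedSectionVars false
set_option linter.unusedVariables false

namespace Pool.Agent.TH127.PG

open NumberField Module Pool.Agent.W547.KB Pool.Agent.W537.PC Pool.Agent.W527
  Pool.Agent.H204R3.CM Pool.Agent.W527.Struct Pool.Agent.W527.Per Pool.Agent.W527.Vec
  Pool.Agent.H977R3.WN Pool.Agent.TH127.SC Pool.Agent.W527.Dec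

variable {ι : Type} [Fintype ι] {A : ι → CMPair} {P : PeriodSystem}

theorem fin_swap_equiv (m : ℕ) : Nonempty (Fin (2 * m) ≃ Fin m × Fin 2) :=
  ⟨(finCongr (mul_comm 2 m)).trans finProdFinEquiv.symm⟩

theorem domDomCongr_symm {W κ κ' : Type} [AddCommGroup W] [Module ℚ W] (e : κ ≃ κ')
    (f : W [⋀^κ]→ₗ[ℚ] ℚ) : (f.domDomCongr e).domDomCongr e.symm = f := by
  ext v
  rw [AlternatingMap.domDomCongr_apply, AlternatingMap.domDomCongr_apply]
  congr 1
  funext k
  simp

theorem domDomCongr_symm' {W κ κ' : Type} [AddCommGroup W] [Module ℚ W] (e : κ ≃ κ')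
    (f : W [⋀^κ']→ₗ[ℚ] ℚ) : (f.domDomCongr e.symm).domDomCongr e = f := by
  ext v
  rw [AlternatingMap.domDomCongr_apply, AlternatingMap.domDomCongr_apply]
  congr 1
  funext k
  simp

/-- De Rham-Betti classes are divisorial iff they are Hodge classes and Hodge classes are
divisorial. -/
theorem allDRBDivisorial_iff (hD : P.Deligne) :
    AllDRBDivisorial A P ↔ AllHodge P A ∧ Divisorial A := by
  constructor
  · intro h
    refine ⟨fun J _ t k f hf => hodge_of_isDivisorial (h J t k f hf), fun J _ t m f hf => ?_⟩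
    obtain ⟨e⟩ := fin_swap_equiv m
    have hf' : IsHodge (productOf A t).per f := hf
    have h1 := h J t m (f.domDomCongr e.symm) (hD _ m _ (hodge_reindex e.symm hf')) e
    have h2 : (f.domDomCongr e.symm).domDomCongr e = f := domDomCongr_symm' e f
    rw [h2] at h1
    exact h1
  · rintro ⟨h1, h2⟩ J _ t m f hf
    exact divisorial_mem h2 t (h1 J t m f hf)

/-- The criterion. -/
theorem drb_criterion (hB : P.Bost) (hD : P.Deligne) (hprim : IsPrimitive A)
    (hA : MildOrGood A) :
    AllDRBDivisorial A P ↔ SeparatedTypes A ∧ TwoTermRelations P A := by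
  rw [allDRBDivisorial_iff hD, allHodge_iff_good A hB hD (abelianMildOrGood_of_mildOrGood hA),
    hodge_criterion hprim (mildOrGoodTypes_of hA), and_comm]

theorem drb_of_rigid (hB : P.Bost) (hD : P.Deligne) (hA : MildOrGood A) (h : Rigid A) :
    AllDRBDivisorial A P := by
  rw [allDRBDivisorial_iff hD, allHodge_iff_good A hB hD (abelianMildOrGood_of_mildOrGood hA)]
  exact ⟨twoTerm_of_simpleSubfields A hB hD (simpleSubfields_of_rigid h),
    divisorial_of_separated (mildOrGoodTypes_of hA) (separatedTypes_of_rigid h)⟩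

/-- The periods are separated iff the types are separated and all relations with two terms are
explained by the types. -/
theorem periodsSeparated_iff (hD : P.Deligne) :
    PeriodsSeparated A P ↔ SeparatedTypes A ∧ TwoTermRelations P A := by
  classical
  rcases isEmpty_or_nonempty ι with hι | hι
  · exact ⟨fun _ => ⟨fun T i => (hι.false i).elim, fun T i => (hι.false i).elim⟩,
      fun _ T i => (hι.false i).elim⟩
  obtain ⟨L, _, _, _, _, j, hj⟩ := exists_cm (⟨ι, A⟩ : CMAV)
  have hj' : ∀ i, ∀ ψ : (A i).E →+* ℂ, ∃ φ : (A i).E →+* L, j.comp φ = ψ := hj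
  have φ₀ : ∀ i, ((A i).E →+* L) := fun i => (hj' i (Classical.arbitrary _)).choose
  have hκ : ∀ i, ∀ φ : (A i).E →+* L, cc L • φ = cbar φ := fun i φ => cc_smul j φ
  constructor
  · intro h
    constructor
    · intro T i i' χ χ' hi hi' hp
      obtain ⟨m, n, hm, hn, hh⟩ := hp
      obtain ⟨ψ, rfl⟩ := sub_emb (E := fun i => (A i).E) j hj' i (T i) χ
      obtain ⟨ψ', rfl⟩ := sub_emb (E := fun i => (A i).E) j hj' i' (T i') χ'
      obtain ⟨m', rfl⟩ := Int.eq_ofNat_of_zero_le hm.le
      obtain ⟨n', rfl⟩ := Int.eq_ofNat_of_zero_le hn.le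
      refine h T i i' (j.comp ψ) (j.comp ψ') m' n' hi hi' (Int.natCast_pos.1 hm)
        (Int.natCast_pos.1 hn) ((ratio_all_iff A j hj' ψ ψ' m' n').2 fun g => ?_)
      exact deligne_two A j hD ((excess_all_iff A j hj' ψ ψ' m' n').1 hh) g
    · intro T i i' χ χ' m n hi hi' hm hn hh
      have hs := h T i i' χ χ' m n hi hi' hm hn hh
      obtain ⟨h1, h2⟩ := Sigma.mk.inj hs
      change i = i' at h1
      subst h1
      have h3 : χ = χ' := eq_of_heq h2
      subst h3
      obtain ⟨ψ, rfl⟩ := sub_emb (E := fun i => (A i).E) j hj' i (T i) χ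
      by_cases hmn : m = n
      · subst hmn
        exact fun _ => rfl
      · exfalso
        have h4 := (ratio_all_iff A j hj' ψ ψ m n).1 hh
        have h5 : ∀ g : L ≃ₐ[ℚ] L, trV (T i) (ww A j P i) (g • ψ) = 0 := by
          intro g
          have h6 : ((m : ℤ) - n) • trV (T i) (ww A j P i) (g • ψ) = 0 := by
            rw [sub_smul, h4 g, sub_self]
          refine zs_cancel ?_ h6
          omega
        have h7 := h T i i (j.comp ψ) (j.comp (cc L • ψ)) 1 1 hi hi one_pos one_pos
          ((ratio_all_iff A j hj' ψ (cc L • ψ) 1 1).2 fun g => by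
            rw [h5 g, sub_comm (φ₀ i) (hκ i), trV_odd (φ₀ i) (hκ i) (T i) (ww_odd A j hD i), h5 g,
              neg_zero])
        have h8 : j.comp ψ = j.comp (cc L • ψ) := eq_of_heq (Sigma.mk.inj h7).2
        have h9 := Pool.Agent.W527.comp_injective j h8
        exact sub_ne (φ₀ i) (hκ i) ((nonReal_iff _).2 hi) ψ h9.symm
  · rintro ⟨h1, h2⟩ T i i' ψ ψ' m n hi hi' hm hn hh
    refine h1 T i i' ψ ψ' hi hi' ⟨m, n, Int.natCast_pos.2 hm, Int.natCast_pos.2 hn, fun τ => ?_⟩
    exact h2 T i i' ψ ψ' m n hi hi' hm hn hh τ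

end Pool.Agent.TH127.PG
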