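import Mathlib
import Pool.Agent.TH127.PG.DivMain

/-!
# Families of CM types whose classes of embeddings have at most two pairs
-/

set_option linter.unusedSectionVars false
set_option linter.unusedVariables false

namespace Pool.Agent.TH127.PG

open NumberField Module Pool.Agent.W547.KB Pool.Agent.W537.PC Pool.Agent.W527
  Pool.Agent.H204R3.CM Pool.Agent.W527.Struct Pool.Agent.W527.Per Pool.Agent.W527.Vec
  Pool.Agent.H977R3.WN Pool.Agent.TH127.SC Pool.Agent.W527.Dec Pool.Agent.TH127.PT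

section abstract

variable {G G' Y Y' : Type*} [Group G] [Group G'] [MulAction G Y] [MulAction G' Y'] {cb : Y → Y}
  {cb' : Y' → Y'} (f : Y ≃ Y') (hcb : ∀ y, f (cb y) = cb' (f y))
  (h1 : ∀ g : G, ∃ g' : G', ∀ y, f (g • y) = g' • f y)
  (h2 : ∀ g' : G', ∃ g : G, ∀ y, f (g • y) = g' • f y)

include hcb h1 h2 in
theorem twoPairs_transfer {y : Y} (h : TwoPairs G' cb' (f y)) : TwoPairs G cb y := by
  obtain ⟨htr, hcard⟩ := h
  refine ⟨fun z hz => ?_, ?_⟩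
  · obtain ⟨g', hg'⟩ := htr (f z) ((link_iff f hcb h1 h2 _ _).1 hz)
    obtain ⟨g, hg⟩ := h2 g'
    refine ⟨g, f.injective ?_⟩
    rw [hg, hg']
  · refine le_trans (le_of_eq ?_) hcard
    refine Nat.card_congr (Equiv.subtypeEquiv f fun z => ?_)
    exact link_iff f hcb h1 h2 y z

end abstract

noncomputable section

variable {ι : Type} [Fintype ι] {A : ι → CMPair}

section galois

variable {L : Type} [Field L] [NumberField L] [IsGalois ℚ L] (j : L →+* ℂ)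
  (h : ∀ i, ∀ ψ : (A i).E →+* ℂ, ∃ φ : (A i).E →+* L, j.comp φ = ψ)
  {κ : L ≃ₐ[ℚ] L} (hκ : ∀ x, starRingEnd ℂ (j x) = j (κ x))

/-- The complex conjugate. -/
def kb (κ : L ≃ₐ[ℚ] L) (y : Σ i, ((A i).E →+* L)) : Σ i, ((A i).E →+* L) := ⟨y.1, κ • y.2⟩

include h hκ in
theorem twoPairs_gal (hT : ∀ x : Embs (fun i => (A i).E), AtMostTwoPairs x)
    (y : Σ i, ((A i).E →+* L)) : TwoPairs (L ≃ₐ[ℚ] L) (kb κ) y := by
  let f := embEquiv (F := fun i => (A i).E) j h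
  refine twoPairs_transfer (G := L ≃ₐ[ℚ] L) (G' := ℂ ≃+* ℂ)
    (cb' := Pool.Agent.TH127.SC.bar) f ?_ ?_ ?_ (hT (f y))
  · rintro ⟨i, ψ⟩
    change (⟨i, j.comp (κ • ψ)⟩ : Σ i, ((A i).E →+* ℂ)) =
      ⟨i, ComplexEmbedding.conjugate (j.comp ψ)⟩
    have h1 : ComplexEmbedding.conjugate (j.comp ψ) = j.comp (κ • ψ) :=
      RingHom.ext fun x => hκ (ψ x)
    rw [h1]
  · intro g
    obtain ⟨τ, hτ⟩ := exists_lift' j g
    refine ⟨τ, ?_⟩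
    rintro ⟨i, ψ⟩
    change (⟨i, j.comp (g • ψ)⟩ : Σ i, ((A i).E →+* ℂ)) = ⟨i, (τ : ℂ →+* ℂ).comp (j.comp ψ)⟩
    rw [lifts_comp j hτ]
  · intro τ
    obtain ⟨g, hg⟩ := exists_lift j τ
    refine ⟨g, ?_⟩
    rintro ⟨i, ψ⟩
    change (⟨i, j.comp (g • ψ)⟩ : Σ i, ((A i).E →+* ℂ)) = ⟨i, (τ : ℂ →+* ℂ).comp (j.comp ψ)⟩
    rw [lifts_comp j hg]

include h hκ in
/-- Relations of separated functions vanish. -/
theorem zero_of_sep (hT : ∀ x : Embs (fun i => (A i).E), AtMostTwoPairs x)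
    (hκκ : ∀ i, ∀ φ : (A i).E →+* L, κ • φ = cbar φ)
    {V : Type} [AddCommGroup V] [Module ℚ V] (w : ∀ i, ((A i).E →+* L) → V)
    (hw : ∀ i φ, w i (cbar φ) = - w i φ)
    (hsep : ∀ y y' : Σ i, ((A i).E →+* L), (∀ g : L ≃ₐ[ℚ] L, w y.1 (g • y.2) =
      w y'.1 (g • y'.2)) → y = y') (c : ∀ i, ((A i).E →+* L) → ℤ)
    (hc : ∀ i φ, c i (cbar φ) = - c i φ)
    (hrel : ∀ g : L ≃ₐ[ℚ] L, ∑ i, ∑ φ : (A i).E →+* L, c i φ • w i (g • φ) = 0)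
    (i : ι) (φ : (A i).E →+* L) : c i φ = 0 := by
  classical
  obtain ⟨f, W, hW, hWs⟩ := exists_int (fun y : Σ i, ((A i).E →+* L) => w y.1 y.2)
  have h0 : ∀ (g : L ≃ₐ[ℚ] L) (y : Σ i, ((A i).E →+* L)), g • y = ⟨y.1, g • y.2⟩ := fun _ _ => rfl
  refine zero_of_twoPairs (G := L ≃ₐ[ℚ] L) (cb := kb κ) (W := W)
    (c := fun y : Σ i, ((A i).E →+* L) => c y.1 y.2) (y₀ := ⟨i, φ⟩) ?_ ?_ ?_
    (twoPairs_gal j h hκ hT _) ?_ ?_ ?_ ?_
  · rintro ⟨i, ψ⟩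
    unfold kb
    change (⟨i, κ • κ • ψ⟩ : Σ i, ((A i).E →+* L)) = ⟨i, ψ⟩
    rw [hκκ, hκκ, cbar_cbar]
  · rintro ⟨i, ψ⟩ hh
    have h1 : κ • ψ = ψ := eq_of_heq (Sigma.mk.inj hh).2
    rw [hκκ] at h1
    exact cbar_ne ψ h1
  · rintro g ⟨i, ψ⟩
    change (⟨i, g • κ • ψ⟩ : Σ i, ((A i).E →+* L)) = ⟨i, κ • g • ψ⟩
    rw [hκκ, hκκ]
    rfl
  · rintro ⟨i, ψ⟩
    have h1 : ((W (kb κ ⟨i, ψ⟩) : ℤ) : ℚ) = ((- W ⟨i, ψ⟩ : ℤ) : ℚ) := by
      rw [hW]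
      change f (w i (κ • ψ)) = _
      rw [hκκ, hw, map_neg, Int.cast_neg, hW]
    exact_mod_cast h1
  · intro y y' hh
    exact hsep y y' fun g => hWs _ _ (hh g)
  · rintro ⟨i, ψ⟩
    change c i (κ • ψ) = - c i ψ
    rw [hκκ, hc]
  · intro g
    have h3 := congrArg f (hrel g)
    rw [map_sum, map_zero] at h3
    have h4 : ((∑ y : Σ i, ((A i).E →+* L), c y.1 y.2 * W (g • y) : ℤ) : ℚ) = 0 := by
      push_cast
      rw [← h3, Fintype.sum_sigma]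
      refine Finset.sum_congr rfl fun i _ => ?_
      rw [map_sum]
      refine Finset.sum_congr rfl fun φ _ => ?_
      rw [map_zsmul, zsmul_eq_mul, hW]
      rfl
    exact_mod_cast h4

end galois

end

end Pool.Agent.TH127.PG
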