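import Mathlib
import Pool.Agent.TH127.PG.TwoPairs

/-!
# De Rham-Betti classes and Hodge classes for classes of at most two pairs of embeddings
-/

set_option linter.unusedSectionVars false
set_option linter.unusedVariables false

namespace Pool.Agent.TH127.PG

open NumberField Module Pool.Agent.W547.KB Pool.Agent.W537.PC Pool.Agent.W527
  Pool.Agent.H204R3.CM Pool.Agent.W527.Struct Pool.Agent.W527.Per Pool.Agent.W527.Vec
  Pool.Agent.H977R3.WN Pool.Agent.TH127.SC Pool.Agent.W527.Dec Pool.Agent.TH127.PT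

noncomputable section

variable {ι : Type} [Fintype ι] {A : ι → CMPair}

theorem wt_eq_iff {L : Type} [Field L] (Φ : ∀ i, Set ((A i).E →+* ℂ)) (j : L →+* ℂ)
    {i i' : ι} (φ : (A i).E →+* L) (φ' : (A i').E →+* L) :
    wt Φ j i φ = wt Φ j i' φ' ↔ (j.comp φ ∈ Φ i ↔ j.comp φ' ∈ Φ i') := by
  classical
  unfold wt
  by_cases h1 : j.comp φ ∈ Φ i <;> by_cases h2 : j.comp φ' ∈ Φ i' <;> simp [h1, h2]

theorem divisorial_of_twoPairs (hprim : IsPrimitive A)
    (hT : ∀ x : Embs (fun i => (A i).E), AtMostTwoPairs x) : Divisorial A := by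
  classical
  obtain ⟨L, _, _, j, h⟩ := exists_galois (fun i => (A i).E)
  have hΦ : ∀ i, IsCMType (A i).Φ := fun i => (A i).isCMType
  obtain ⟨⟨κ, hκ', hκ''⟩, hne⟩ := conj_data (K := fun i => (A i).E) j h
  have hp := prim_of_primitive j (short_primitive hprim)
  intro J _ t m f hf
  refine hodge_of_nondeg hΦ t j h ?_ f hf
  intro c hc hrel i φ
  refine zero_of_sep (A := A) j h hκ' hT hκ''
    (fun i φ => ((wt (fun i => (A i).Φ) j i φ : ℤ) : ℚ)) ?_ ?_ c hc ?_ i φ
  · intro i φ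
    rw [wt_odd j hΦ i φ]
    push_cast
    rfl
  · intro y y' hh
    refine hp y y' fun σ => ?_
    have h1 := hh σ
    have h2 : wt (fun i => (A i).Φ) j y.1 (σ • y.2) = wt (fun i => (A i).Φ) j y'.1 (σ • y'.2) := by
      exact_mod_cast h1
    exact (wt_eq_iff (fun i => (A i).Φ) j (σ • y.2) (σ • y'.2)).1 h2
  · intro g
    have h1 : ∑ i, ∑ φ : ((A i).E →+* L), c i φ * wt (fun i => (A i).Φ) j i (g • φ) = 0 := hrel g
    have h2 : ((∑ i, ∑ φ : ((A i).E →+* L), c i φ * wt (fun i => (A i).Φ) j i (g • φ) : ℤ) : ℚ) =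
        0 := by
      rw [h1]
      rfl
    push_cast at h2
    simpa only [zsmul_eq_mul] using h2

variable {L : Type} [Field L] [NumberField L] [IsCMField L] [IsGalois ℚ L] {j : L →+* ℂ}
  {P : PeriodSystem}

/-- Different embeddings have different periods. -/
theorem ww_sep (hB : P.Bost) (hD : P.Deligne) (hp : Prim (fun i => (A i).Φ) j)
    (y y' : Σ i, ((A i).E →+* L))
    (h : ∀ g : L ≃ₐ[ℚ] L, ww A j P y.1 (g • y.2) = ww A j P y'.1 (g • y'.2)) : y = y' := by
  classical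
  obtain ⟨i, φ⟩ := y
  obtain ⟨i', φ'⟩ := y'
  let x : Fin 2 → Letter L := ![⟨A i, φ⟩, ⟨A i', φ'⟩]
  let n : Fin 2 → ℤ := ![1, -1]
  let B : (L ≃ₐ[ℚ] L) → ℤ := fun σ => ∑ k, n k * (x k).s j σ
  have hBval : ∀ σ, B σ = (⟨A i, φ⟩ : Letter L).s j σ - (⟨A i', φ'⟩ : Letter L).s j σ := by
    intro σ
    change ∑ k : Fin 2, n k * (x k).s j σ = _
    rw [Fin.sum_univ_two]
    change 1 * (⟨A i, φ⟩ : Letter L).s j σ + -1 * (⟨A i', φ'⟩ : Letter L).s j σ = _
    ring
  have hcase : ∀ σ, B σ = 0 ∨ B σ = 2 ∨ B σ = -2 := by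
    intro σ
    rw [hBval]
    have h1 := (⟨A i, φ⟩ : Letter L).s_cases j σ
    have h2 := (⟨A i', φ'⟩ : Letter L).s_cases j σ
    omega
  have key : ∀ σ : L ≃ₐ[ℚ] L, ∑ k, n k * (x k).s j σ = 0 := by
    refine rel_of_small j hB hD Finset.univ x n ?_ ?_
    · intro τ
      rw [Fin.sum_univ_two]
      change (1 : ℤ) • WL j P ((⟨A i, φ⟩ : Letter L).act τ) +
        (-1 : ℤ) • WL j P ((⟨A i', φ'⟩ : Letter L).act τ) = 0
      have h1 : WL j P ((⟨A i, φ⟩ : Letter L).act τ) = WL j P ((⟨A i', φ'⟩ : Letter L).act τ) :=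
        h τ
      rw [h1, one_smul, neg_smul, one_smul, add_neg_cancel]
    · intro hne
      refine ⟨fun u => if u = 1 then 1 else 0, 2, fun σ => B σ / 2, two_pos, ?_, ?_, ?_, ?_⟩
      · intro h0
        apply hne
        funext σ
        have h1 : B σ / 2 = 0 := congrFun h0 σ
        change B σ = 0
        have h2 := hcase σ
        omega
      · intro σ
        change B σ / 2 = 0 ∨ B σ / 2 = 1 ∨ B σ / 2 = -1
        have h2 := hcase σ
        omega
      · intro σ
        change B (cc L * σ) / 2 = - (B σ / 2)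
        have h3 : B (cc L * σ) = - B σ := by
          rw [hBval, hBval, Letter.s_cc, Letter.s_cc]
          ring
        rw [h3]
        have h2 := hcase σ
        omega
      · intro g
        rw [Finset.sum_eq_single (1 : L ≃ₐ[ℚ] L)]
        · change (if (1 : L ≃ₐ[ℚ] L) = 1 then (1 : ℤ) else 0) * B (g * 1) = ((2 : ℕ) : ℤ) * (B g / 2)
          rw [if_pos rfl, one_mul, mul_one]
          have h2 := hcase g
          push_cast
          omega
        · intro u _ hu
          change (if u = 1 then (1 : ℤ) else 0) * _ = _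
          rw [if_neg hu, zero_mul]
        · intro hu
          exact absurd (Finset.mem_univ _) hu
  refine hp ⟨i, φ⟩ ⟨i', φ'⟩ fun σ => ?_
  have h1 : (⟨A i, φ⟩ : Letter L).s j σ - (⟨A i', φ'⟩ : Letter L).s j σ = 0 := by
    rw [← hBval]
    exact key σ
  rw [s_eq, s_eq, sub_eq_zero] at h1
  exact (wt_eq_iff (fun i => (A i).Φ) j (σ • φ) (σ • φ')).1 h1

/-- De Rham-Betti classes are Hodge classes if the relations between the periods are explained. -/
theorem hodge_of_rel (hD : P.Deligne)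
    (hj : ∀ i, ∀ ψ : (A i).E →+* ℂ, ∃ φ : (A i).E →+* L, j.comp φ = ψ)
    (htr : ∀ c : ∀ i, ((A i).E →+* L) → ℤ, (∀ i φ, c i (cbar φ) = - c i φ) →
      (∀ g : L ≃ₐ[ℚ] L, ∑ i, ∑ φ : (A i).E →+* L, c i φ • ww A j P i (g • φ) = 0) →
        ∀ σ : L ≃ₐ[ℚ] L, ∑ i, ∑ φ : (A i).E →+* L, c i φ • ee A j i (σ • φ) = 0)
    {J : Type} [Fintype J] (t : J → ι) (k : ℕ)
    (f : (productOf A t).H1 [⋀^Fin (2 * k)]→ₗ[ℚ] ℚ) (hf : P.IsDRB (productOf A t) k f) :
    IsHodge (productOf A t).per f := by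
  classical
  have hκ : ∀ i, ∀ φ : (A i).E →+* L, cc L • φ = cbar φ := fun i φ => cc_smul j φ
  have φ₀ : ∀ i, ((A i).E →+* L) := fun i => (hj i (Classical.arbitrary _)).choose
  refine hodge_of_drb_alg j P (productOf A t) (fun a => hj (t a)) k (fun I hI => ?_) f hf
  let y : Fin (2 * k) → EE A L := fun l => ⟨t (I l).1, (I l).2⟩
  let cb : EE A L → EE A L := fun z => ⟨z.1, cbar z.2⟩
  have hcb : Function.Involutive cb := fun z => by simp only [cb, cbar_cbar]
  let N : EE A L → ℤ := fun z => ((Finset.univ.filter (fun l => y l = z)).card : ℤ)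
  have hN : ∀ {U : Type} [AddCommGroup U] (F : EE A L → U), ∑ z, N z • F z = ∑ l, F (y l) := by
    intro U _ F
    have h3 : ∀ z, N z • F z = ∑ l, if y l = z then F z else 0 := by
      intro z
      rw [← Finset.sum_filter, Finset.sum_const, natCast_zsmul]
    rw [Finset.sum_congr rfl (fun z _ => h3 z), Finset.sum_comm]
    refine Finset.sum_congr rfl fun l _ => ?_
    rw [Finset.sum_ite_eq Finset.univ (y l), if_pos (Finset.mem_univ _)]
  have hN2 : ∀ {U : Type} [AddCommGroup U] (F : EE A L → U), (∀ z, F (cb z) = - F z) →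
      ∑ z, (N z - N (cb z)) • F z = (2 : ℤ) • ∑ l, F (y l) := by
    intro U _ F hF
    have h3 : ∑ z, N (cb z) • F z = - ∑ l, F (y l) := by
      rw [← hN F, ← Finset.sum_neg_distrib, ← Equiv.sum_comp (hcb.toPerm cb)]
      refine Finset.sum_congr rfl fun z _ => ?_
      change N (cb (cb z)) • F (cb z) = _
      rw [hcb z, hF, smul_neg]
    simp only [sub_smul]
    rw [Finset.sum_sub_distrib, h3, hN F, sub_neg_eq_add, two_zsmul]
  let c : ∀ i, ((A i).E →+* L) → ℤ := fun i φ => N ⟨i, φ⟩ - N (cb ⟨i, φ⟩)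
  have hc : ∀ i φ, c i (cbar φ) = - c i φ := by
    intro i φ
    change N ⟨i, cbar φ⟩ - N ⟨i, cbar (cbar φ)⟩ = - (N ⟨i, φ⟩ - N ⟨i, cbar φ⟩)
    rw [cbar_cbar]
    ring
  have hcg : ∀ (g : L ≃ₐ[ℚ] L) (i : ι) (φ : (A i).E →+* L), g • cbar φ = cbar (g • φ) :=
    fun g i φ => rfl
  have hWrel : ∀ g : L ≃ₐ[ℚ] L, ∑ i, ∑ φ : (A i).E →+* L, c i φ • ww A j P i (g • φ) = 0 := by
    intro g
    have h1 := hN2 (fun z : EE A L => ww A j P z.1 (g • z.2)) (fun z => by
      change ww A j P z.1 (g • cbar z.2) = _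
      rw [hcg, ww_odd A j hD])
    rw [Fintype.sum_sigma] at h1
    refine Eq.trans h1 ?_
    have h2 : ∑ l, ww A j P (y l).1 (g • (y l).2) = 0 := hI g
    rw [h2, smul_zero]
  intro σ
  have h2 : ∑ i, ∑ φ : (A i).E →+* L, c i φ • ee A j i (σ • φ) = 0 := htr c hc hWrel σ
  have h3 := hN2 (fun z : EE A L => ee A j z.1 (σ • z.2)) (fun z => by
      change ee A j z.1 (σ • cbar z.2) = _
      rw [hcg, ee_odd A j])
  rw [Fintype.sum_sigma] at h3
  have h4 : (2 : ℤ) • ∑ l, ee A j (y l).1 (σ • (y l).2) = 0 := h3.symm.trans h2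
  have h5 : ∑ l, ee A j (y l).1 (σ • (y l).2) = 0 := zs_cancel two_ne_zero h4
  have h6 : ((∑ l, (⟨(productOf A t).factor (I l).1, (I l).2⟩ : Letter L).s j σ : ℤ) : ℚ) = 0 := by
    push_cast
    exact h5
  exact_mod_cast h6

theorem allHodge_of_twoPairs (hB : P.Bost) (hD : P.Deligne) (hprim : IsPrimitive A)
    (hT : ∀ x : Embs (fun i => (A i).E), AtMostTwoPairs x) : AllHodge P A := by
  classical
  rcases isEmpty_or_nonempty ι with hι | hι
  · intro J _ t k f hf
    have hJ : IsEmpty J := ⟨fun a => hι.false (t a)⟩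
    rcases isEmpty_or_nonempty (Fin (2 * k)) with hκ | ⟨⟨k0⟩⟩
    · exact hodge_unit f
    · have h1 : f = 0 := by
        ext v
        have h2 : v k0 = 0 := by
          funext i
          exact (hJ.false i).elim
        rw [f.map_coord_zero k0 h2]
        rfl
      rw [h1]
      exact hodge_zero _ _
  obtain ⟨L, _, _, _, _, j, hj⟩ := exists_cm (⟨ι, A⟩ : CMAV)
  have hj' : ∀ i, ∀ ψ : (A i).E →+* ℂ, ∃ φ : (A i).E →+* L, j.comp φ = ψ := hj
  have hκ : ∀ i, ∀ φ : (A i).E →+* L, cc L • φ = cbar φ := fun i φ => cc_smul j φ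
  have hp : Prim (fun i => (A i).Φ) j := prim_of_primitive j (short_primitive hprim)
  intro J _ t k f hf
  refine hodge_of_rel hD hj' (fun c hc hrel σ => ?_) t k f hf
  have h0 : ∀ i φ, c i φ = 0 := zero_of_sep (A := A) j hj' (κ := cc L)
    (fun x => (emb_cc j x).symm) hT hκ (ww A j P) (ww_odd A j hD) (ww_sep hB hD hp) c hc hrel
  refine Finset.sum_eq_zero fun i _ => Finset.sum_eq_zero fun φ _ => ?_
  rw [h0, zero_smul]

/-- All de Rham-Betti classes are combinations of products of divisor classes. -/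
theorem drb_of_twoPairs (hB : P.Bost) (hD : P.Deligne) (hprim : IsPrimitive A)
    (hT : ∀ x : Embs (fun i => (A i).E), AtMostTwoPairs x) : AllDRBDivisorial A P :=
  (allDRBDivisorial_iff hD).2
    ⟨allHodge_of_twoPairs hB hD hprim hT, divisorial_of_twoPairs hprim hT⟩

end

end Pool.Agent.TH127.PG
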