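import Mathlib
import Pool.Agent.TH127.PG.TwoPairs2
import Pool.Agent.TH127.SC.Indep

/-!
# Independent families of CM types
-/

set_option linter.unusedSectionVars false
set_option linter.unusedVariables false

namespace Pool.Agent.TH127.PG

open NumberField Module Pool.Agent.W547.KB Pool.Agent.W537.PC Pool.Agent.W527
  Pool.Agent.H204R3.CM Pool.Agent.W527.Struct Pool.Agent.W527.Per Pool.Agent.TH127.SC

variable {ι : Type} {A : ι → CMPair} {P : PeriodSystem}

/-- The abelian variety of the CM type `A` is simple. -/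
def IsSimple (A : CMPair) : Prop := IsPrimitive (fun _ : Unit => A)

theorem isPrimitive_of_independent (hind : Independent (fun i => (A i).E))
    (h : ∀ i, IsSimple (A i)) : IsPrimitive A := by
  rintro ⟨i, φ⟩ ⟨i', φ'⟩ hh
  by_cases hii : i = i'
  · subst hii
    have h1 := h i ⟨(), φ⟩ ⟨(), φ'⟩ hh
    have h2 : φ = φ' := eq_of_heq (Sigma.mk.inj h1).2
    rw [h2]
  · exfalso
    obtain ⟨τ, h1, h2⟩ := hind i i' hii
    have h3 := hh τ
    have h4 := hh 1
    have h5 : Short.act τ φ = φ := h1 φ
    have h6 : Short.act τ φ' = ComplexEmbedding.conjugate φ' := h2 φ'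
    have h7 : Short.act (1 : ℂ ≃+* ℂ) φ = φ := rfl
    have h8 : Short.act (1 : ℂ ≃+* ℂ) φ' = φ' := rfl
    have h9 := (A i').isCMType φ'
    change (Short.act τ φ ∈ (A i).Φ ↔ Short.act τ φ' ∈ (A i').Φ) at h3
    change (Short.act 1 φ ∈ (A i).Φ ↔ Short.act 1 φ' ∈ (A i').Φ) at h4
    rw [h5, h6] at h3
    rw [h7, h8] at h4
    tauto

variable [Fintype ι]

theorem drb_of_flips (hB : P.Bost) (hD : P.Deligne) (h : ∀ i, IsSimple (A i))
    (hind : Independent (fun i => (A i).E)) (hf : ∀ i, ManyFlips 3 (A i).E) :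
    AllDRBDivisorial A P :=
  drb_of_twoPairs hB hD (isPrimitive_of_independent hind h)
    fun x => twoPairs_of_independent (K := fun i => (A i).E) hind hf x

theorem rigid_of_independent (hind : Independent (fun i => (A i).E))
    (h : ∀ (i : ι) (T : IntermediateField ℚ (A i).E), IsCM T → T = ⊤) : Rigid A :=
  ⟨h, fun i i' hii hiso =>
    (not_isomorphic_of_independent (K := fun i => (A i).E) hind hii).false hiso.some⟩

end Pool.Agent.TH127.PG
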