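import Mathlib
import Pool.Agent.TH127.PG.Lattice
import Pool.Agent.TH127.PT.Sub

/-!
# The smallest subtorsor that contains the period matrix of an abelian variety of CM type
-/

set_option linter.unusedSectionVars false
set_option linter.unusedVariables false

namespace Pool.Agent.TH127.PG

open NumberField Pool.Agent.H204R3.CM Pool.Agent.W547.KB Pool.Agent.W537.PC Module
  Pool.Agent.W527 Pool.Agent.W527.Dec Pool.Agent.W527.Struct Pool.Agent.H977R3.WN
  Pool.Agent.W527.Vec Pool.Agent.W527.Per Pool.Agent.TH127.SC Pool.Agent.TH127.PT Matrix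

noncomputable section

variable {ι : Type} [Fintype ι] (A : ι → CMPair) {J : Type} [Fintype J] (t : J → ι)
  {N : Type} [Fintype N] [DecidableEq N]

theorem card_eq (e : Basis N ℚ (∀ a, (A (t a)).E)) :
    Fintype.card N = Fintype.card (PEmbs A t) := by
  classical
  rw [← Module.finrank_eq_card_basis e, Module.finrank_pi_fintype]
  have h1 : Fintype.card (PEmbs A t) = ∑ a, Fintype.card ((A (t a)).E →+* ℂ) := by
    rw [← Fintype.card_sigma]
    exact Fintype.card_congr (Equiv.refl _)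
  rw [h1]
  exact Finset.sum_congr rfl fun a _ => (Embeddings.card _ ℂ).symm

variable {A t} in
/-- **The smallest subtorsor over a field that is linearly disjoint from the CM fields.** -/
theorem mem_of_subtorsor {P : PeriodSystem} (hB : P.Bost) (hD : P.Deligne)
    (hA : AbelianMildOrGood A) (hT : TwoTermRelations P A) {K : Subfield ℂ}
    (hK : ∀ x ∈ K, IsAlgebraic ℚ x) (hKA : LinearlyDisjoint A K)
    {e : Basis N ℚ (∀ a, (A (t a)).E)} {M : Matrix N N ℂ} (hM : IsPeriodMatrix A t P e M)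
    {T : Set (Matrix N N ℂ)} (hTs : IsSubtorsor K T) (hMT : M ∈ T) {g : Matrix N N ℂ}
    (hg : g ∈ mumfordTate A t e) : M * g ∈ T := by
  classical
  obtain ⟨B, hBa, hMB⟩ := hM
  obtain ⟨s, hs, hgs⟩ := hg
  let θ : Embs (fun i => (A i).E) → ℂ := fun x => P.θ (A x.1) x.2
  have hθ : ∀ x, θ x ≠ 0 := fun x => P.ne_zero _ _
  let π : PEmbs A t → Embs (fun i => (A i).E) := fun y => (⟨t y.1, y.2⟩ : Σ i, ((A i).E →+* ℂ))
  have hPA : M = B * diagonal (fun y => θ (π y)) * embMatrix A t e := by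
    rw [hMB]
    congr 1
    ext n y
    rw [Matrix.mul_diagonal]
    rfl
  have hgs' : embMatrix A t e * g =
      diagonal (fun y => ((s (π y) : ℂˣ) : ℂ)) * embMatrix A t e := by
    rw [hgs]
    ext y n
    rw [Matrix.diagonal_mul]
    rfl
  have hdet : IsUnit M.det := (Matrix.isUnit_iff_isUnit_det M).1 (hTs.isUnit M hMT)
  have h1 : (M⁻¹ * (B * diagonal (fun y => θ (π y)))) * embMatrix A t e = 1 := by
    rw [Matrix.mul_assoc, ← hPA, Matrix.nonsing_inv_mul M hdet]
  set Ψ := M⁻¹ * (B * diagonal (fun y => θ (π y))) with hΨ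
  have h2 : embMatrix A t e * Ψ = 1 := (Matrix.mul_eq_one_comm_of_card_eq _ _ _ (card_eq A t e)).1 h1
  have hπ : ∀ (σ : ℂ ≃+* ℂ) y, π (σ • y) = σ • π y := fun σ y => rfl
  have hΦ : ∀ (σ : ℂ ≃+* ℂ) (y : PEmbs A t) n,
      σ (embMatrix A t e y n) = embMatrix A t e (σ • y) n := fun σ y n => rfl
  have hΦa : ∀ y n, IsAlgebraic ℚ (embMatrix A t e y n) := by
    intro y n
    have h5 : IsAlgebraic ℚ (e n y.1) := Algebra.IsAlgebraic.isAlgebraic _
    exact (isAlgebraic_algHom_iff (RingHom.equivRatAlgHom _ ℂ y.2) y.2.injective).2 h5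
  have hmem : s ∈ HH h1 h2 hTs hMT π := by
    refine mem_of_char h1 h2 hTs hMT hPA s fun c hc => hs c ?_
    refine isMTChar_of_algebraic A hB hD hA hT c fun τ => ?_
    obtain ⟨σ, hσ, hστ⟩ := hKA τ
    have h6 := char_algebraic hπ hΦ h1 h2 hTs hMT hθ hPA hK hBa hΦa hc hσ
    have h7 : ∀ x : Embs (fun i => (A i).E), σ • x = τ • x := by
      rintro ⟨i, φ⟩
      exact congrArg (fun χ => (⟨i, χ⟩ : Σ i, ((A i).E →+* ℂ))) (hστ i φ)
    have h8 : ∏ x : Embs (fun i => (A i).E), P.θ (A x.1) x.2 ^ c (τ • x) =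
        ∏ x, θ x ^ c (σ • x) := Finset.prod_congr rfl fun x _ => by rw [h7]
    rw [h8]
    exact h6
  have hgE : g = Pool.Agent.TH127.PT.EE π (embMatrix A t e) Ψ s := by
    unfold Pool.Agent.TH127.PT.EE
    rw [Matrix.mul_assoc, ← hgs', ← Matrix.mul_assoc, h1, Matrix.one_mul]
  rw [hgE]
  exact hmem

end

end Pool.Agent.TH127.PG
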